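import Mathlib
set_option autoImplicit false

/-!
Integrability on `ℂ` of products of powers `‖z - r_j‖ ^ (- b_j)`.
-/

namespace Pool.Agent.J4.H67.REG

open MeasureTheory Set

/-- the comparison function -/
noncomputable def G0 (t : ℝ) : ℝ := t ^ (-(3 / 2) : ℝ) * (1 + t)⁻¹

lemma integrable_G0 : Integrable (fun z : ℂ => G0 ‖z‖) := by
  rw [integrable_fun_norm_addHaar (μ := (volume : Measure ℂ)) (f := G0)]
  have hdim : Module.finrank ℝ ℂ - 1 = 1 := by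
    rw [Complex.finrank_real_complex]
  rw [hdim]
  have e1 : EqOn (fun y : ℝ => y ^ 1 • G0 y) (fun y : ℝ => y ^ (-(1 / 2) : ℝ) * (1 + y)⁻¹) (Ioi 0) := by
    intro y hy
    have hy : 0 < y := hy
    simp only [pow_one, smul_eq_mul]
    unfold G0
    rw [← mul_assoc]
    congr 1
    have h1 := Real.rpow_add hy 1 (-(3 / 2))
    rw [Real.rpow_one] at h1
    rw [← h1]
    norm_num
  rw [integrableOn_congr_fun e1 measurableSet_Ioi]
  have hm : Measurable (fun y : ℝ => y ^ (-(1 / 2) : ℝ) * (1 + y)⁻¹) := by fun_prop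
  rw [← Ioc_union_Ioi_eq_Ioi zero_le_one]
  apply IntegrableOn.union
  · have h1 : IntegrableOn (fun y : ℝ => y ^ (-(1 / 2) : ℝ)) (Ioc 0 1) := by
      rw [← intervalIntegrable_iff_integrableOn_Ioc_of_le zero_le_one]
      exact intervalIntegral.intervalIntegrable_rpow' (by norm_num)
    apply Integrable.mono' h1 hm.aestronglyMeasurable
    rw [ae_restrict_iff' measurableSet_Ioc]
    refine Filter.Eventually.of_forall fun y hy => ?_
    have hy0 : 0 < y := hy.1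
    rw [Real.norm_of_nonneg (by positivity)]
    have h2 : (1 + y)⁻¹ ≤ 1 := inv_le_one_of_one_le₀ (by linarith)
    have h3 : 0 ≤ y ^ (-(1 / 2) : ℝ) := by positivity
    nlinarith
  · have h1 : IntegrableOn (fun y : ℝ => y ^ (-(3 / 2) : ℝ)) (Ioi 1) := by
      exact integrableOn_Ioi_rpow_of_lt (by norm_num) one_pos
    apply Integrable.mono' h1 hm.aestronglyMeasurable
    rw [ae_restrict_iff' measurableSet_Ioi]
    refine Filter.Eventually.of_forall fun y hy => ?_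
    have hy1 : 1 < y := hy
    have hy0 : 0 < y := by linarith
    rw [Real.norm_of_nonneg (by positivity)]
    have h2 : (1 + y)⁻¹ ≤ y⁻¹ := inv_anti₀ hy0 (by linarith)
    have h3 : 0 ≤ y ^ (-(1 / 2) : ℝ) := by positivity
    calc y ^ (-(1 / 2) : ℝ) * (1 + y)⁻¹ ≤ y ^ (-(1 / 2) : ℝ) * y⁻¹ := mul_le_mul_of_nonneg_left h2 h3
      _ = y ^ (-(3 / 2) : ℝ) := by
        rw [← Real.rpow_neg_one y, ← Real.rpow_add hy0]
        norm_num

lemma integrable_G0_sub (r : ℂ) : Integrable (fun z : ℂ => G0 ‖z - r‖) :=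
  integrable_G0.comp_sub_right r

/-- separation -/
lemma exists_sep {ι : Type} [Fintype ι] [Nonempty ι] (r : ι → ℂ) (hr : Function.Injective r) :
    ∃ κ : ℝ, 0 < κ ∧ (∀ z j, ‖z - r j‖ ≤ κ * (1 + ‖z‖)) ∧
      ∀ z, ∃ i, ∀ j, j ≠ i → 1 + ‖z‖ ≤ κ * ‖z - r j‖ := by
  set K : ℝ := 1 + ∑ i, ∑ j, ‖r i - r j‖⁻¹ with hK
  set R : ℝ := ∑ j, ‖r j‖ with hR
  have hK1 : 1 ≤ K := by
    have : 0 ≤ ∑ i, ∑ j, ‖r i - r j‖⁻¹ := by positivity
    linarith
  have hKd : ∀ i j, i ≠ j → 1 ≤ K * ‖r i - r j‖ := by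
    intro i j hij
    have h1 : ‖r i - r j‖⁻¹ ≤ K := by
      have h2 : ‖r i - r j‖⁻¹ ≤ ∑ j, ‖r i - r j‖⁻¹ :=
        Finset.single_le_sum (f := fun j => ‖r i - r j‖⁻¹) (fun _ _ => by positivity) (Finset.mem_univ j)
      have h3 : ∑ j, ‖r i - r j‖⁻¹ ≤ ∑ i, ∑ j, ‖r i - r j‖⁻¹ :=
        Finset.single_le_sum (f := fun i => ∑ j, ‖r i - r j‖⁻¹) (fun _ _ => by positivity) (Finset.mem_univ i)
      linarith
    have h2 : 0 < ‖r i - r j‖ := norm_pos_iff.2 (sub_ne_zero.2 (fun h => hij (hr h)))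
    calc (1 : ℝ) = ‖r i - r j‖⁻¹ * ‖r i - r j‖ := (inv_mul_cancel₀ h2.ne').symm
      _ ≤ K * ‖r i - r j‖ := mul_le_mul_of_nonneg_right h1 h2.le
  have hR0 : 0 ≤ R := by positivity
  have hRj : ∀ j, ‖r j‖ ≤ R := fun j =>
    Finset.single_le_sum (f := fun j => ‖r j‖) (fun _ _ => norm_nonneg _) (Finset.mem_univ j)
  refine ⟨1 + 2 * K * (1 + R), by positivity, ?_, ?_⟩
  · intro z j
    have h1 := norm_sub_le z (r j)
    have h2 := hRj j
    have h3 := norm_nonneg z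
    nlinarith [mul_nonneg hR0 h3, mul_nonneg (by linarith : (0 : ℝ) ≤ K - 1) (by positivity : (0 : ℝ) ≤ (1 + R) * (1 + ‖z‖))]
  · intro z
    obtain ⟨i, -, hi⟩ := Finset.exists_min_image Finset.univ (fun j => ‖z - r j‖) Finset.univ_nonempty
    refine ⟨i, fun j hj => ?_⟩
    have h1 := hi j (Finset.mem_univ j)
    have h2 := hKd i j (Ne.symm hj)
    have h3 : ‖r i - r j‖ ≤ 2 * ‖z - r j‖ := by
      have : r i - r j = (z - r j) - (z - r i) := by ring
      have := norm_sub_le (z - r j) (z - r i)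
      rw [show (z - r j) - (z - r i) = r i - r j by ring] at this
      linarith
    have h4 : 1 ≤ 2 * K * ‖z - r j‖ := by nlinarith
    have h5 : ‖z‖ ≤ ‖z - r j‖ + ‖r j‖ := by
      have := norm_add_le (z - r j) (r j)
      rwa [sub_add_cancel] at this
    have h6 := hRj j
    nlinarith [mul_nonneg hR0 (norm_nonneg (z - r j))]

lemma integrable_prod {ι : Type} [Fintype ι] [Nonempty ι] (r : ι → ℂ) (hr : Function.Injective r) (b : ι → ℝ)
    (hb0 : ∀ j, 0 ≤ b j) (hb : ∀ j, b j ≤ 3 / 2) (a : ℝ) (hab : a + 5 / 2 ≤ ∑ j, b j) (C : ℝ) (F : ℂ → ℂ)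
    (hF : AEStronglyMeasurable F) (hle : ∀ z, (∀ j, z ≠ r j) → ‖F z‖ ≤ C * ((1 + ‖z‖) ^ a * ∏ j, ‖z - r j‖ ^ (- b j))) :
    Integrable F := by
  classical
  obtain ⟨κ, hκ, hsep1, hsep2⟩ := exists_sep r hr
  set D : ℝ := max κ 1 with hD
  have hD1 : 1 ≤ D := le_max_right _ _
  have hDκ : κ ≤ D := le_max_left _ _
  have hD0 : 0 < D := by linarith
  set B := ∑ j, b j with hBdef
  have hBound : ∀ z, (∀ j, z ≠ r j) → (1 + ‖z‖) ^ a * ∏ j, ‖z - r j‖ ^ (- b j) ≤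
      D ^ B * D ^ (3 / 2 : ℝ) * (2 * D) * ∑ i, G0 ‖z - r i‖ := by
    intro z hz
    have ht : ∀ j, 0 < ‖z - r j‖ := fun j => norm_pos_iff.2 (sub_ne_zero.2 (hz j))
    have hM : 1 ≤ 1 + ‖z‖ := by linarith [norm_nonneg z]
    have hM0 : 0 < 1 + ‖z‖ := by linarith
    obtain ⟨i, hi⟩ := hsep2 z
    have e1 : ∏ j, ‖z - r j‖ ^ (- b j) ≤ ‖z - r i‖ ^ (- b i) * (D ^ (B - b i) * (1 + ‖z‖) ^ (-(B - b i))) := by
      have h0 : B - b i = ∑ j ∈ Finset.univ.erase i, b j := by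
        rw [hBdef, ← Finset.add_sum_erase _ _ (Finset.mem_univ i)]
        ring
      have h1 : ∏ j ∈ Finset.univ.erase i, ‖z - r j‖ ^ (- b j) ≤ ∏ j ∈ Finset.univ.erase i, (D ^ (b j) * (1 + ‖z‖) ^ (- b j)) := by
        apply Finset.prod_le_prod
        · intro j _
          positivity
        · intro j hj
          have h2 := hi j (Finset.ne_of_mem_erase hj)
          have h3 : (1 + ‖z‖) / D ≤ ‖z - r j‖ := by
            rw [div_le_iff₀ hD0]
            nlinarith [ht j]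
          have h4 := Real.rpow_le_rpow_of_nonpos (by positivity : 0 < (1 + ‖z‖) / D) h3 (neg_nonpos.2 (hb0 j))
          refine h4.trans (le_of_eq ?_)
          rw [Real.div_rpow hM0.le hD0.le, Real.rpow_neg hD0.le (b j), div_inv_eq_mul, mul_comm]
      rw [← Finset.mul_prod_erase _ _ (Finset.mem_univ i)]
      apply mul_le_mul_of_nonneg_left (h1.trans (le_of_eq _)) (by positivity)
      rw [Finset.prod_mul_distrib, ← Real.rpow_sum_of_pos hD0, ← Real.rpow_sum_of_pos hM0, Finset.sum_neg_distrib, ← h0]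
    have e2 : ‖z - r i‖ ^ (- b i) ≤ ‖z - r i‖ ^ (-(3 / 2) : ℝ) * (D ^ (3 / 2 - b i) * (1 + ‖z‖) ^ (3 / 2 - b i)) := by
      have h1 : ‖z - r i‖ ^ (- b i) = ‖z - r i‖ ^ (-(3 / 2) : ℝ) * ‖z - r i‖ ^ (3 / 2 - b i) := by
        rw [← Real.rpow_add (ht i)]
        congr 1
        ring
      rw [h1]
      apply mul_le_mul_of_nonneg_left _ (by positivity)
      rw [← Real.mul_rpow hD0.le hM0.le]
      apply Real.rpow_le_rpow (ht i).le _ (by linarith [hb i])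
      exact (hsep1 z i).trans (mul_le_mul_of_nonneg_right hDκ hM0.le)
    have e3 : (1 + ‖z‖) ^ a * ∏ j, ‖z - r j‖ ^ (- b j) ≤
        D ^ (B - b i) * D ^ (3 / 2 - b i) * (‖z - r i‖ ^ (-(3 / 2) : ℝ) * ((1 + ‖z‖) ^ (a + (3 / 2 - b i) - (B - b i)))) := by
      calc (1 + ‖z‖) ^ a * ∏ j, ‖z - r j‖ ^ (- b j) ≤ (1 + ‖z‖) ^ a * ((‖z - r i‖ ^ (-(3 / 2) : ℝ) *
            (D ^ (3 / 2 - b i) * (1 + ‖z‖) ^ (3 / 2 - b i))) * (D ^ (B - b i) * (1 + ‖z‖) ^ (-(B - b i)))) := by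
            apply mul_le_mul_of_nonneg_left _ (by positivity)
            exact e1.trans (mul_le_mul_of_nonneg_right e2 (by positivity))
        _ = _ := by
            have h1 : (1 + ‖z‖) ^ (a + (3 / 2 - b i) - (B - b i)) = (1 + ‖z‖) ^ a * (1 + ‖z‖) ^ (3 / 2 - b i) * (1 + ‖z‖) ^ (-(B - b i)) := by
              rw [← Real.rpow_add hM0, ← Real.rpow_add hM0]
              congr 1
            rw [h1]
            ring
    have e4 : (1 + ‖z‖) ^ (a + (3 / 2 - b i) - (B - b i)) ≤ (2 * D) * (1 + ‖z - r i‖)⁻¹ := by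
      have h1 : (1 + ‖z‖) ^ (a + (3 / 2 - b i) - (B - b i)) ≤ (1 + ‖z‖) ^ (-1 : ℝ) :=
        Real.rpow_le_rpow_of_exponent_le hM (by linarith)
      refine h1.trans ?_
      rw [Real.rpow_neg_one, ← div_eq_mul_inv, inv_eq_one_div, div_le_div_iff₀ hM0 (by linarith [ht i])]
      have h2 := hsep1 z i
      nlinarith [mul_le_mul_of_nonneg_right hDκ hM0.le]
    have e5 : D ^ (B - b i) * D ^ (3 / 2 - b i) ≤ D ^ B * D ^ (3 / 2 : ℝ) := by
      apply mul_le_mul (Real.rpow_le_rpow_of_exponent_le hD1 (by linarith [hb0 i]))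
        (Real.rpow_le_rpow_of_exponent_le hD1 (by linarith [hb0 i])) (by positivity) (by positivity)
    have hG : ∀ j, 0 ≤ G0 ‖z - r j‖ := fun j => by
      unfold G0
      have := (ht j).le
      positivity
    have e6 : G0 ‖z - r i‖ ≤ ∑ i, G0 ‖z - r i‖ :=
      Finset.single_le_sum (f := fun j => G0 ‖z - r j‖) (fun j _ => hG j) (Finset.mem_univ i)
    calc (1 + ‖z‖) ^ a * ∏ j, ‖z - r j‖ ^ (- b j) ≤ _ := e3
      _ ≤ (D ^ B * D ^ (3 / 2 : ℝ)) * (‖z - r i‖ ^ (-(3 / 2) : ℝ) * ((2 * D) * (1 + ‖z - r i‖)⁻¹)) :=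
          mul_le_mul e5 (mul_le_mul_of_nonneg_left e4 (by positivity)) (by positivity) (by positivity)
      _ = D ^ B * D ^ (3 / 2 : ℝ) * (2 * D) * G0 ‖z - r i‖ := by
          unfold G0
          ring
      _ ≤ _ := mul_le_mul_of_nonneg_left e6 (by positivity)
  have hint : Integrable (fun z : ℂ => |C| * (D ^ B * D ^ (3 / 2 : ℝ) * (2 * D) * ∑ i, G0 ‖z - r i‖)) := by
    apply Integrable.const_mul
    apply Integrable.const_mul
    exact integrable_finsetSum _ fun i _ => integrable_G0_sub (r i)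
  refine hint.mono' hF ?_
  have hae : ∀ᵐ z : ℂ, z ∉ Set.range r := (Set.finite_range r).countable.ae_notMem volume
  filter_upwards [hae] with z hz
  have hz' : ∀ j, z ≠ r j := fun j h => hz ⟨j, h.symm⟩
  refine (hle z hz').trans ?_
  have h1 := hBound z hz'
  have h2 : 0 ≤ (1 + ‖z‖) ^ a * ∏ j, ‖z - r j‖ ^ (- b j) := by positivity
  calc C * ((1 + ‖z‖) ^ a * ∏ j, ‖z - r j‖ ^ (- b j)) ≤ |C| * ((1 + ‖z‖) ^ a * ∏ j, ‖z - r j‖ ^ (- b j)) :=
        mul_le_mul_of_nonneg_right (le_abs_self C) h2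
    _ ≤ _ := mul_le_mul_of_nonneg_left h1 (abs_nonneg C)

end Pool.Agent.J4.H67.REG
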