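import Pool.Agent.J4.H67.REG.Geo
set_option autoImplicit false
set_option linter.unusedSectionVars false

/-!
The cycles on the products of elliptic curves.
-/

namespace Pool.Agent.J4.H67.REG

open Polynomial MeasureTheory

open scoped ComplexConjugate

variable {ι : Type} {e : ι → Fin 3 → ℂ}

lemma Place.value_zero {L : Type} [Field L] [Algebra ℂ L] (v : Place L) : v.value 0 = 0 := by
  have h := Place.Val.const (v := v) 0
  rw [map_zero] at h
  exact h.value

lemma reg_eq_zero_left (Z : CurveFn e) (i j : ι) (h : Z.h i = 0) : Z.reg i j = 0 := by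
  change ∫ z : ℂ, ∑ᶠ v ∈ {v : Place Z.L | v.Val Z.x z},
    (Real.log ‖v.value Z.f‖ : ℂ) * v.value (Z.h i) * conj (v.value (Z.h j)) = 0
  simp [h, Place.value_zero]

lemma reg_conj (Z : CurveFn e) (i j : ι) : conj (Z.reg i j) = Z.reg j i := by
  change conj (∫ z : ℂ, ∑ᶠ v ∈ {v : Place Z.L | v.Val Z.x z},
    (Real.log ‖v.value Z.f‖ : ℂ) * v.value (Z.h i) * conj (v.value (Z.h j))) =
    ∫ z : ℂ, ∑ᶠ v ∈ {v : Place Z.L | v.Val Z.x z},
    (Real.log ‖v.value Z.f‖ : ℂ) * v.value (Z.h j) * conj (v.value (Z.h i))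
  rw [← integral_conj]
  congr 1
  ext z
  classical
  have h1 : ∀ (F : Place Z.L → ℂ), conj (∑ᶠ v ∈ {v : Place Z.L | v.Val Z.x z}, F v) =
      ∑ᶠ v ∈ {v : Place Z.L | v.Val Z.x z}, conj (F v) := by
    intro F
    simp only [finsum_eq_if]
    have := AddEquiv.map_finsum (starRingAut (R := ℂ)).toAddEquiv
      (fun v : Place Z.L => if v ∈ {v : Place Z.L | v.Val Z.x z} then F v else 0)
    refine this.trans (finsum_congr fun v => ?_)
    split_ifs
    · rfl
    · exact map_zero _
  rw [h1]
  apply finsum_congr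
  intro v
  congr 1
  ext _
  simp only [map_mul, Complex.conj_ofReal, Complex.conj_conj]
  ring

lemma reg_eq_zero_right (Z : CurveFn e) (i j : ι) (h : Z.h j = 0) : Z.reg i j = 0 := by
  rw [← reg_conj, reg_eq_zero_left Z j i h, map_zero]

lemma reg_isHermitian (Z : CurveFn e) : Z.reg.IsHermitian := by
  ext i j
  rw [Matrix.conjTranspose_apply]
  exact reg_conj Z j i

/-- the places at which `(x - c) / (x + c)` is not a unit -/
lemma ord_ne_zero {L : Type} [Field L] [Algebra ℂ L] {v : Place L} {x : L} {c : ℂ} 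
    (h : v.ord ((x - algebraMap ℂ L c) / (x + algebraMap ℂ L c)) ≠ 0) : v.Val x c ∨ v.Val x (-c) := by
  by_contra hcon
  push Not at hcon
  apply h
  apply Place.ord_unit
  have key : ∀ {a : L}, a ∈ v.O → a ∉ v.O.nonunits → v.IsU a := by
    intro a h1 h2
    have h3 := (v.O.valuation_le_one_iff a).2 h1
    rw [Place.nu_iff] at h2
    exact le_antisymm h3 (not_lt.1 h2)
  by_cases hx : x ∈ v.O
  · apply Place.IsU.div
    · exact key (sub_mem hx (v.mem c)) hcon.1
    · apply key (v.O.add_mem _ _ hx (v.mem c))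
      intro h1
      apply hcon.2
      unfold Place.Val
      rw [map_neg, sub_neg_eq_add]
      exact h1
  · have h1 : x⁻¹ ∈ v.O.nonunits := (ValuationSubring.inv_mem_nonunits_iff _).2 (Or.inr hx)
    have hx0 : x ≠ 0 := by
      rintro rfl
      exact hx v.O.zero_mem
    have h2 : v.Val x⁻¹ 0 := Place.Val.zero_iff.2 h1
    have h3 : v.Val (1 - algebraMap ℂ L c * x⁻¹) 1 := by
      have := (Place.Val.const (v := v) 1).sub ((Place.Val.const c).mul h2)
      rw [map_one] at this
      simpa using this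
    have h4 : v.Val (1 + algebraMap ℂ L c * x⁻¹) 1 := by
      have := (Place.Val.const (v := v) 1).add ((Place.Val.const c).mul h2)
      rw [map_one] at this
      simpa using this
    have h5 := (h3.isU one_ne_zero).div (h4.isU one_ne_zero)
    convert h5 using 1
    have e1 : x - algebraMap ℂ L c = x * (1 - algebraMap ℂ L c * x⁻¹) := by field_simp
    have e2 : x + algebraMap ℂ L c = x * (1 + algebraMap ℂ L c * x⁻¹) := by field_simp
    rw [e1, e2, mul_div_mul_left _ _ hx0]

lemma aeval_sex {L : Type} [Field L] [Algebra ℂ L] (s : Fin 3 → ℂ) (a : L) :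
    aeval a (sex s) = ∏ k, (a ^ 2 - algebraMap ℂ L (s k)) := by
  unfold sex
  rw [map_prod]
  simp

lemma nu_of_sq {L : Type} [Field L] [Algebra ℂ L] {v : Place L} {y : L} (h : y ^ 2 ∈ v.O.nonunits) : y ∈ v.O.nonunits := by
  rw [sq] at h
  rcases Place.nu_prime h with h | h <;> exact h

section
variable [DecidableEq ι]

/-- **The curve of genus two.** -/
theorem exists_sexCycle (i j : ι) (hij : j ≠ i) (s : Fin 3 → ℂ) (hs : Function.Injective s) (hs0 : ∀ k, s k ≠ 0)
    (α β a : ℂ) (hα : α ≠ 0) (ha : a ^ 2 = α ^ 3) (he : ∀ k, e i k = α * s k + β)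
    (α' β' b : ℂ) (hα' : α' ≠ 0) (hb : b ^ 2 = -(α' ^ 3) / ∏ k, s k) (g : Fin 3 → ℂ) (hgc : cubic (e j) = cubic g)
    (hg : ∀ k, g k = α' / s k + β')
    (k₀ : Fin 3) (c : ℂ) (hc : c ^ 2 = s k₀) :
    ∃ Z : CurveFn e, Z.IsCycle ∧ (∀ k, k ≠ i → k ≠ j → Z.h k = 0) ∧
      Z.reg i j = (-8 * (α / a) * conj (α' / b)) * ∫ z, FF s c z := by
  have hS : ∏ k, s k ≠ 0 := Finset.prod_ne_zero_iff.2 fun k _ => hs0 k
  have ha0 : a ≠ 0 := by
    rintro rfl
    apply pow_ne_zero 3 hα
    rw [← ha]
    norm_num
  have hb0 : b ≠ 0 := by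
    rintro rfl
    have h1 : -(α' ^ 3) / ∏ k, s k ≠ 0 := div_ne_zero (neg_ne_zero.2 (pow_ne_zero 3 hα')) hS
    apply h1
    rw [← hb]
    norm_num
  have hc0 : c ≠ 0 := by
    rintro rfl
    apply hs0 k₀
    rw [← hc]
    norm_num
  have : Fact (Irreducible (hpol (sex s))) := ⟨(Simple_sex hs hs0).irr⟩
  set x : HF (sex s) := xx (HF (sex s)) with hx
  set y : HF (sex s) := yy (sex s) with hy
  have hx0 : x ≠ 0 := by
    have := xx_sub_ne (L := HF (sex s)) 0
    rwa [map_zero, sub_zero] at this
  have hA : (cubic (e i)).comp (C α * X ^ 2 + C β) = C (a ^ 2) * sex s := by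
    unfold cubic sex
    rw [prod_comp]
    have h1 : ∀ k, (X - C (e i k)).comp (C α * X ^ 2 + C β) = C α * (X ^ 2 - C (s k)) := by
      intro k
      rw [sub_comp, X_comp, C_comp, he, C_add, C_mul]
      ring
    rw [Finset.prod_congr rfl (fun k _ => h1 k), Finset.prod_mul_distrib, Finset.prod_const, ha, C_pow]
    rfl
  have hB : aeval ((xx (HF (sex s)))⁻¹) ((cubic (e j)).comp (C α' * X ^ 2 + C β')) =
      (algebraMap ℂ _ b * yy (sex s) * (xx (HF (sex s)))⁻¹ ^ 3) ^ 2 := by
    rw [hgc, aeval_comp, aeval_cubic]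
    have h1 : ∀ k, (aeval ((xx (HF (sex s)))⁻¹) (C α' * X ^ 2 + C β')) - algebraMap ℂ _ (g k) =
        (algebraMap ℂ _ (-α') * algebraMap ℂ _ (s k)⁻¹) * ((x ^ 2 - algebraMap ℂ _ (s k)) * x⁻¹ ^ 2) := by
      intro k
      have h2 : algebraMap ℂ (HF (sex s)) (s k) ≠ 0 := (_root_.map_ne_zero _).2 (hs0 k)
      rw [hg, map_add, map_mul, map_pow, aeval_C, aeval_C, aeval_X, map_add, map_div₀, map_neg, map_inv₀, ← hx]
      field_simp
      ring
    rw [Finset.prod_congr rfl (fun k _ => h1 k), Finset.prod_mul_distrib, Finset.prod_mul_distrib, Finset.prod_mul_distrib,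
      Finset.prod_const, Finset.prod_const, ← map_prod, Finset.prod_inv_distrib]
    have h2 : ∏ k, (x ^ 2 - algebraMap ℂ (HF (sex s)) (s k)) = y ^ 2 := by
      rw [hy, yy_sq, ← hx, aeval_sex]
    rw [h2, mul_pow, mul_pow, ← map_pow, ← map_pow, hb, ← hx, ← hy]
    have h3 : algebraMap ℂ (HF (sex s)) (-(α' ^ 3) / ∏ k, s k) = algebraMap ℂ _ ((-α') ^ 3) * algebraMap ℂ _ (∏ k, s k)⁻¹ := by
      rw [← map_mul]
      congr 1
      rw [div_eq_mul_inv]
      ring
    rw [h3]
    have h4 : (Finset.univ : Finset (Fin 3)).card = 3 := rfl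
    rw [h4]
    ring
  set A := ppt (sex s) (e i) (C α * X ^ 2 + C β) a ha0 (sex_ne s) hA with hAdef
  set B := ipt (sex s) (e j) α' β' b hb0 (sex_ne s) hB with hBdef
  have hxc : x - algebraMap ℂ _ c ≠ 0 := xx_sub_ne c
  have hxc' : x + algebraMap ℂ _ c ≠ 0 := by
    have := xx_sub_ne (L := HF (sex s)) (-c)
    rwa [map_neg, sub_neg_eq_add] at this
  set f : HF (sex s) := (x - algebraMap ℂ _ c) / (x + algebraMap ℂ _ c) with hf
  have hf0 : f ≠ 0 := div_ne_zero hxc hxc'
  set Z : CurveFn e := ofPts (two i j A B) f hf0 with hZ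
  have hPc : (sex s).eval c = 0 := by
    rw [sex_eval]
    unfold QQ
    rw [Finset.prod_eq_zero (Finset.mem_univ k₀)]
    rw [hc, sub_self]
  have hPc' : (sex s).eval (-c) = 0 := by
    rw [sex_eval, QQ_neg, ← sex_eval]
    exact hPc
  have hσf : (inv2 (sex s) (sex_even s)).σ f = f⁻¹ := by
    rw [hf, map_div₀, map_sub, map_add, (inv2 (sex s) (sex_even s)).cst, hx, inv2_xx, inv_div, ← neg_div_neg_eq]
    congr 1 <;> ring
  have hpt : ∀ v : Place (HF (sex s)), v.ord f ≠ 0 → ∀ k, v.point ((inv2 (sex s) (sex_even s)).σ (two i j A B k).X)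
      ((inv2 (sex s) (sex_even s)).σ (two i j A B k).Y) = v.point (two i j A B k).X (two i j A B k).Y := by
    intro v hv k
    have hv' : v.Val x c ∨ v.Val x (-c) := ord_ne_zero hv
    have hyv : v.Val y 0 := by
      apply Place.Val.zero_iff.2
      apply nu_of_sq
      rw [hy, yy_sq, ← hx, ← Place.Val.zero_iff]
      rcases hv' with h | h
      · have := h.aeval (sex s)
        rwa [hPc] at this
      · have := h.aeval (sex s)
        rwa [hPc'] at this
    refine two_cases i j A B (fun k p => v.point ((inv2 (sex s) (sex_even s)).σ p.X) ((inv2 (sex s) (sex_even s)).σ p.Y) =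
      v.point p.X p.Y) ?_ ?_ ?_ k
    · have h1 : (inv2 (sex s) (sex_even s)).σ A.X = A.X := by
        change (inv2 (sex s) (sex_even s)).σ (aeval x (C α * X ^ 2 + C β)) = aeval x (C α * X ^ 2 + C β)
        rw [map_add, map_mul, map_pow, aeval_C, aeval_C, aeval_X, map_add, map_mul, map_pow,
          (inv2 (sex s) (sex_even s)).cst, (inv2 (sex s) (sex_even s)).cst, hx, inv2_xx, neg_sq]
      have h2 : (inv2 (sex s) (sex_even s)).σ A.Y = A.Y := by
        change (inv2 (sex s) (sex_even s)).σ (algebraMap ℂ _ a * y) = algebraMap ℂ _ a * y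
        rw [map_mul, (inv2 (sex s) (sex_even s)).cst, hy, inv2_yy]
      rw [h1, h2]
    · have h1 : (inv2 (sex s) (sex_even s)).σ B.X = B.X := by
        change (inv2 (sex s) (sex_even s)).σ (aeval x⁻¹ (C α' * X ^ 2 + C β')) = aeval x⁻¹ (C α' * X ^ 2 + C β')
        rw [map_add, map_mul, map_pow, aeval_C, aeval_C, aeval_X, map_add, map_mul, map_pow, map_inv₀,
          (inv2 (sex s) (sex_even s)).cst, (inv2 (sex s) (sex_even s)).cst, hx, inv2_xx, inv_neg, neg_sq]
      have h2 : (inv2 (sex s) (sex_even s)).σ B.Y = - B.Y := by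
        change (inv2 (sex s) (sex_even s)).σ (algebraMap ℂ _ b * y * x⁻¹ ^ 3) = -(algebraMap ℂ _ b * y * x⁻¹ ^ 3)
        rw [map_mul, map_mul, map_pow, map_inv₀, (inv2 (sex s) (sex_even s)).cst, hy, inv2_yy, hx, inv2_xx, inv_neg]
        ring
      rw [h1, h2]
      have h3 : v.Val B.Y 0 := by
        change v.Val (algebraMap ℂ _ b * y * x⁻¹ ^ 3) 0
        have h4 : v.Val x⁻¹ c⁻¹ ∨ v.Val x⁻¹ (-c)⁻¹ := by
          rcases hv' with h | h
          · exact Or.inl (h.inv hc0)
          · exact Or.inr (h.inv (neg_ne_zero.2 hc0))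
        rcases h4 with h | h
        · have := ((Place.Val.const b).mul hyv).mul (h.pow 3)
          rwa [mul_zero, zero_mul] at this
        · have := ((Place.Val.const b).mul hyv).mul (h.pow 3)
          rwa [mul_zero, zero_mul] at this
      have h4 : v.Val (-B.Y) 0 := by
        have := h3.neg
        rwa [neg_zero] at this
      unfold Place.point
      rw [h3.value, h4.value]
    · intro k
      have h1 : (inv2 (sex s) (sex_even s)).σ (cpt (HF (sex s)) (e k)).X = (cpt (HF (sex s)) (e k)).X :=
        (inv2 (sex s) (sex_even s)).cst _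
      have h2 : (inv2 (sex s) (sex_even s)).σ (cpt (HF (sex s)) (e k)).Y = (cpt (HF (sex s)) (e k)).Y :=
        (inv2 (sex s) (sex_even s)).cst _
      rw [h1, h2]
  refine ⟨Z, isCycle_of_invol Z (inv2 (sex s) (sex_even s)) hσf hpt, ?_, ?_⟩
  · intro k h1 h2
    change (two i j A B k).h = 0
    rw [two_k i j A B k h1 h2]
    rfl
  · -- the regulator
    have hBad : ({z : ℂ | (sex s).eval z = 0} ∪ {0, -c}).Countable := by
      apply Set.Finite.countable
      apply Set.Finite.union _ (Set.toFinite _)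
      exact (sex s).roots.toFinset.finite_toSet.subset fun z hz => by
        simp only [Finset.mem_coe, Multiset.mem_toFinset]
        exact (mem_roots (sex_ne s)).2 hz
    have hvals : ∀ z ∉ ({z : ℂ | (sex s).eval z = 0} ∪ {0, -c}), ∀ v : Place (HF (sex s)), v.Val x z → ∀ η : ℂ,
        η ^ 2 = (sex s).eval z → η ≠ 0 → v.Val y η → v.Val f ((z - c) / (z + c)) ∧
        ∀ k, v.Val (two i j A B k).h ((if k = i then 2 * α * z / a else if k = j then -(2 * α') / b else 0) / η) := by
      intro z hz v hv1 η hη hη0 hv2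
      simp only [Set.mem_union, Set.mem_insert_iff, Set.mem_singleton_iff, not_or] at hz
      obtain ⟨-, hz0, hzc⟩ := hz
      constructor
      · refine (hv1.sub (Place.Val.const c)).div (hv1.add (Place.Val.const c)) ?_
        intro h
        exact hzc (eq_neg_of_add_eq_zero_left h)
      · intro k
        by_cases hk : k = i
        · subst hk
          rw [two_i]
          simp only [if_true]
          have h1 := ppt_val (sex s) (e k) (C α * X ^ 2 + C β) a ha0 (sex_ne s) hA v z η hv1 hv2 hη0
          have h2 : eval z (derivative (C α * X ^ 2 + C β)) / (a * η) = 2 * α * z / a / η := by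
            simp only [derivative_add, derivative_mul, derivative_C, zero_mul, zero_add, derivative_X_pow, add_zero, eval_mul,
              eval_C, eval_pow, eval_X]
            rw [div_div]
            congr 1
            norm_num
            ring
          rwa [h2] at h1
        · by_cases hk' : k = j
          · subst hk'
            rw [two_j i k hk]
            simp only [if_neg hk, if_true]
            exact ipt_val (sex s) (e k) α' β' b hb0 (sex_ne s) hB v η hv2 hη0
          · rw [two_k i j A B k hk hk', if_neg hk, if_neg hk', zero_div]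
            have h0 := Place.Val.const (v := v) 0
            rw [map_zero] at h0
            exact h0
    have hreg := reg_hyp Z (P := sex s) (y := y) (isHyp (sex s)) (inv1 (sex s)) (inv1_xx (sex s)) (inv1_yy (sex s))
      (fun z => (z - c) / (z + c)) (fun k z => if k = i then 2 * α * z / a else if k = j then -(2 * α') / b else 0)
      _ hBad (fun z hz h => hz (Or.inl h)) hvals i j
    rw [hreg, ← integral_const_mul]
    congr 1
    ext z
    unfold FF
    rw [sex_eval]
    simp only [if_true, if_neg hij, map_div₀, map_neg, map_mul, Complex.conj_ofNat]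
    ring

/-- **The graph of an isomorphism, with a constant function.** -/
theorem exists_graphCycle (i j : ι) (hij : j ≠ i) (hei : Function.Injective (e i)) (κ β b : ℂ) (hκ : κ ≠ 0)
    (hb : b ^ 2 = κ ^ 3) (g : Fin 3 → ℂ) (hgc : cubic (e j) = cubic g) (hg : ∀ k, g k = κ * e i k + β) :
    ∃ Z : CurveFn e, Z.IsCycle ∧ (∀ k, k ≠ i → k ≠ j → Z.h k = 0) ∧
      Z.reg i j = conj (κ / b) * ((2 * Real.log 2 * ∫ z, ‖∏ k, (z - e i k)‖⁻¹ : ℝ) : ℂ) := by
  have hb0 : b ≠ 0 := by
    rintro rfl
    apply pow_ne_zero 3 hκ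
    rw [← hb]
    norm_num
  have : Fact (Irreducible (hpol (cubic (e i)))) := ⟨(Simple_cubic hei).irr⟩
  have hP0 := cubic_ne (e i)
  have hA : (cubic (e i)).comp X = C (1 ^ 2) * cubic (e i) := by
    rw [comp_X]
    simp
  have hB : (cubic (e j)).comp (C κ * X + C β) = C (b ^ 2) * cubic (e i) := by
    rw [hgc]
    unfold cubic
    rw [prod_comp]
    have h1 : ∀ k, (X - C (g k)).comp (C κ * X + C β) = C κ * (X - C (e i k)) := by
      intro k
      rw [sub_comp, X_comp, C_comp, hg, C_add, C_mul]
      ring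
    rw [Finset.prod_congr rfl (fun k _ => h1 k), Finset.prod_mul_distrib, Finset.prod_const, hb, C_pow]
    rfl
  set A := ppt (cubic (e i)) (e i) X 1 one_ne_zero hP0 hA with hAdef
  set B := ppt (cubic (e i)) (e j) (C κ * X + C β) b hb0 hP0 hB with hBdef
  have h2 : algebraMap ℂ (HF (cubic (e i))) 2 ≠ 0 := (_root_.map_ne_zero _).2 two_ne_zero
  refine ⟨ofPts (two i j A B) (algebraMap ℂ _ 2) h2, isCycle_of_const _ 2 rfl, ?_, ?_⟩
  · intro k h1 h2
    change (two i j A B k).h = 0
    rw [two_k i j A B k h1 h2]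
    rfl
  · have hBad : ({z : ℂ | (cubic (e i)).eval z = 0}).Countable := by
      apply Set.Finite.countable
      exact (cubic (e i)).roots.toFinset.finite_toSet.subset fun z hz => by
        simp only [Finset.mem_coe, Multiset.mem_toFinset]
        exact (mem_roots hP0).2 hz
    have hvals : ∀ z ∉ ({z : ℂ | (cubic (e i)).eval z = 0}), ∀ v : Place (HF (cubic (e i))), v.Val (xx _) z → ∀ η : ℂ,
        η ^ 2 = (cubic (e i)).eval z → η ≠ 0 → v.Val (yy _) η → v.Val (algebraMap ℂ _ 2) 2 ∧
        ∀ k, v.Val (two i j A B k).h ((if k = i then 1 else if k = j then κ / b else 0) / η) := by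
      intro z hz v hv1 η hη hη0 hv2
      refine ⟨Place.Val.const 2, fun k => ?_⟩
      by_cases hk : k = i
      · subst hk
        rw [two_i]
        simp only [if_true]
        have h1 := ppt_val (cubic (e k)) (e k) X 1 one_ne_zero hP0 hA v z η hv1 hv2 hη0
        rw [derivative_X, eval_one, one_mul] at h1
        exact h1
      · by_cases hk' : k = j
        · subst hk'
          rw [two_j i k hk]
          simp only [if_neg hk, if_true]
          have h1 := ppt_val (cubic (e i)) (e k) (C κ * X + C β) b hb0 hP0 hB v z η hv1 hv2 hη0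
          have h2 : eval z (derivative (C κ * X + C β)) / (b * η) = κ / b / η := by
            rw [div_div]
            simp
          rwa [h2] at h1
        · rw [two_k i j A B k hk hk', if_neg hk, if_neg hk', zero_div]
          have h0 := Place.Val.const (v := v) 0
          rw [map_zero] at h0
          exact h0
    have hreg := reg_hyp (ofPts (two i j A B) (algebraMap ℂ _ 2) h2) (P := cubic (e i)) (y := yy (cubic (e i)))
      (isHyp (cubic (e i))) (inv1 (cubic (e i))) (inv1_xx (cubic (e i))) (inv1_yy (cubic (e i)))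
      (fun z => 2) (fun k z => if k = i then 1 else if k = j then κ / b else 0)
      _ hBad (fun z hz h => hz h) hvals i j
    rw [hreg, ← integral_const_mul, ← integral_complex_ofReal, ← integral_const_mul]
    congr 1
    ext z
    rw [cubic_eval]
    simp only [if_true, if_neg hij, Complex.norm_ofNat]
    push_cast
    ring

/-- **One of the elliptic curves, with a constant function.** -/
theorem exists_diagCycle (i : ι) (hei : Function.Injective (e i)) :
    ∃ Z : CurveFn e, Z.IsCycle ∧ (∀ k, k ≠ i → Z.h k = 0) ∧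
      Z.reg i i = ((2 * Real.log 2 * ∫ z, ‖∏ k, (z - e i k)‖⁻¹ : ℝ) : ℂ) := by
  have : Fact (Irreducible (hpol (cubic (e i)))) := ⟨(Simple_cubic hei).irr⟩
  have hP0 := cubic_ne (e i)
  have hA : (cubic (e i)).comp X = C (1 ^ 2) * cubic (e i) := by
    rw [comp_X]
    simp
  set A := ppt (cubic (e i)) (e i) X 1 one_ne_zero hP0 hA with hAdef
  have h2 : algebraMap ℂ (HF (cubic (e i))) 2 ≠ 0 := (_root_.map_ne_zero _).2 two_ne_zero
  refine ⟨ofPts (two i i A A) (algebraMap ℂ _ 2) h2, isCycle_of_const _ 2 rfl, ?_, ?_⟩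
  · intro k h1
    change (two i i A A k).h = 0
    rw [two_k i i A A k h1 h1]
    rfl
  · have hBad : ({z : ℂ | (cubic (e i)).eval z = 0}).Countable := by
      apply Set.Finite.countable
      exact (cubic (e i)).roots.toFinset.finite_toSet.subset fun z hz => by
        simp only [Finset.mem_coe, Multiset.mem_toFinset]
        exact (mem_roots hP0).2 hz
    have hvals : ∀ z ∉ ({z : ℂ | (cubic (e i)).eval z = 0}), ∀ v : Place (HF (cubic (e i))), v.Val (xx _) z → ∀ η : ℂ,
        η ^ 2 = (cubic (e i)).eval z → η ≠ 0 → v.Val (yy _) η → v.Val (algebraMap ℂ _ 2) 2 ∧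
        ∀ k, v.Val (two i i A A k).h ((if k = i then 1 else 0) / η) := by
      intro z hz v hv1 η hη hη0 hv2
      refine ⟨Place.Val.const 2, fun k => ?_⟩
      by_cases hk : k = i
      · subst hk
        rw [two_i]
        simp only [if_true]
        have h1 := ppt_val (cubic (e k)) (e k) X 1 one_ne_zero hP0 hA v z η hv1 hv2 hη0
        rw [derivative_X, eval_one, one_mul] at h1
        exact h1
      · rw [two_k i i A A k hk hk, if_neg hk, zero_div]
        have h0 := Place.Val.const (v := v) 0
        rw [map_zero] at h0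
        exact h0
    have hreg := reg_hyp (ofPts (two i i A A) (algebraMap ℂ _ 2) h2) (P := cubic (e i)) (y := yy (cubic (e i)))
      (isHyp (cubic (e i))) (inv1 (cubic (e i))) (inv1_xx (cubic (e i))) (inv1_yy (cubic (e i)))
      (fun z => 2) (fun k z => if k = i then 1 else 0)
      _ hBad (fun z hz h => hz h) hvals i i
    rw [hreg, ← integral_const_mul, ← integral_complex_ofReal]
    congr 1
    ext z
    rw [cubic_eval]
    simp only [if_true, Complex.norm_ofNat, map_one, mul_one]
    push_cast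
    ring

end

end Pool.Agent.J4.H67.REG
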