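import Mathlib
set_option autoImplicit false

/-!
Curves with functions on a product of elliptic curves, and their real regulators.
-/

namespace Pool.Agent.J4.H67.REG

open Polynomial MeasureTheory

open scoped ComplexConjugate

/-- A place of the extension field `L` of `ℂ`: a valuation ring of `L`, different from `L`, which
contains `ℂ`.  If `L` is the field of rational functions of a smooth projective curve over `ℂ`, the
places are the local rings of the points of the curve. -/
structure Place (L : Type) [Field L] [Algebra ℂ L] where
  /-- the valuation ring -/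
  O : ValuationSubring L
  mem : ∀ c : ℂ, algebraMap ℂ L c ∈ O
  ne : O ≠ ⊤

variable {L : Type} [Field L] [Algebra ℂ L]

/-- The function `a` has the value `c` at the place `v`: `a - c` is in the maximal ideal. -/
def Place.Val (v : Place L) (a : L) (c : ℂ) : Prop := a - algebraMap ℂ L c ∈ v.O.nonunits

open Classical in
/-- The value of the function `a` at the place `v` (and `0` if `a` has no value at `v`, that is, at
the poles of `a`). -/
noncomputable def Place.value (v : Place L) (a : L) : ℂ := if H : ∃ c, v.Val a c then H.choose else 0

/-- The order of `a` at `v` is `n`: `a / π ^ n` is a unit of the valuation ring, for a generator `π`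
of the maximal ideal. -/
def Place.IsOrd (v : Place L) (a : L) (n : ℤ) : Prop :=
  ∃ p : L, p ≠ 0 ∧ p ∈ v.O.nonunits ∧ (∀ b ∈ v.O.nonunits, b / p ∈ v.O) ∧ a / p ^ n ∈ v.O ∧ p ^ n / a ∈ v.O

open Classical in
/-- The order of `a` at `v`. -/
noncomputable def Place.ord (v : Place L) (a : L) : ℤ := if H : ∃ n, v.IsOrd a n then H.choose else 0

open Classical in
/-- The point of the curve `Y² = F(X)` at the place `v`, for a solution `(X, Y)` in `L`: the values
of `X` and `Y` if they are finite at `v`, and the point `none` at infinity otherwise. -/
noncomputable def Place.point (v : Place L) (X Y : L) : Option (ℂ × ℂ) :=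
  if X ∈ v.O then some (v.value X, v.value Y) else none

/-- The polynomial `F = (X - e_0) (X - e_1) (X - e_2)`. -/
noncomputable def cubic (e : Fin 3 → ℂ) : ℂ[X] := ∏ k, (X - C (e k))

/-- A curve with a rational function on the product of the elliptic curves `E_i : Y² = F_i(X)`,
`F_i = cubic (e i)`, `i ∈ ι`, given by its parametrization: a finite extension `L` of `ℂ(x)`, which
is the field of the rational functions of a smooth projective curve `C`, a solution `(X_i, Y_i)` of
the equation of `E_i` in `L` with `Y_i ≠ 0` for each `i` (that is, a morphism from `C` to the product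
whose coordinates are not constantly a point of order `≤ 2`), and a nonzero rational function `f ∈ L`.
The element `h_i ∈ L` with `dX_i = h_i Y_i dx` in the module of the Kähler differentials of `L` over
`ℂ` is the pull-back `h_i dx` of the holomorphic differential form `dX / Y` of `E_i`. -/
structure CurveFn {ι : Type} (e : ι → Fin 3 → ℂ) where
  /-- the field of rational functions of the curve -/
  L : Type
  [field : Field L]
  [algC : Algebra ℂ L]
  [algR : Algebra (RatFunc ℂ) L]
  [tower : IsScalarTower ℂ (RatFunc ℂ) L]
  [fin : FiniteDimensional (RatFunc ℂ) L]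
  /-- the first coordinates -/
  X : ι → L
  /-- the second coordinates -/
  Y : ι → L
  eqn : ∀ i, Y i ^ 2 = aeval (X i) (cubic (e i))
  ne : ∀ i, Y i ≠ 0
  /-- the pull-backs of the forms `dX / Y` are `h_i dx` -/
  h : ι → L
  form : ∀ i, KaehlerDifferential.D ℂ L (X i) =
    (h i * Y i) • KaehlerDifferential.D ℂ L (algebraMap (RatFunc ℂ) L RatFunc.X)
  /-- the rational function -/
  f : L
  fne : f ≠ 0

attribute [instance] CurveFn.field CurveFn.algC CurveFn.algR CurveFn.tower CurveFn.fin

variable {ι : Type} {e : ι → Fin 3 → ℂ}

/-- The element `x` of the field `L`. -/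
noncomputable def CurveFn.x (Z : CurveFn e) : Z.L := algebraMap (RatFunc ℂ) Z.L RatFunc.X

/-- The curve with the function `Z` is a cycle: the image in the product of the elliptic curves of the
divisor of the function is `0`: for all points `A` of the product the sum of the orders of `f` at the
places which are mapped to `A` vanishes. -/
def CurveFn.IsCycle (Z : CurveFn e) : Prop :=
  ∀ A : ι → Option (ℂ × ℂ), ∑ᶠ v ∈ {v : Place Z.L | ∀ i, v.point (Z.X i) (Z.Y i) = A i}, v.ord Z.f = 0

/-- The regulator of `Z`: the integrals over the curve `C` of `log |f|` times the pull-backs of the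
forms `ω_i ∧ conj ω_j`, with `ω_i = dX_i / Y_i` (up to the factor `- 2 √(-1)`); the integral over `C` is
written as the integral over `z ∈ ℂ` of the sum over the places `v` of `L` with `x(v) = z`. -/
noncomputable def CurveFn.reg (Z : CurveFn e) : Matrix ι ι ℂ := Matrix.of fun i j =>
  ∫ z : ℂ, ∑ᶠ v ∈ {v : Place Z.L | v.Val Z.x z},
    (Real.log ‖v.value Z.f‖ : ℂ) * v.value (Z.h i) * conj (v.value (Z.h j))

end Pool.Agent.J4.H67.REG
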