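import Pool.Agent.J4.H67.REG.Cyc
set_option autoImplicit false
set_option linter.unusedSectionVars false

/-!
For every direction there is a cycle with nonvanishing regulator.
-/

namespace Pool.Agent.J4.H67.REG

open Polynomial MeasureTheory

open scoped ComplexConjugate

variable {ι : Type} {e : ι → Fin 3 → ℂ} [DecidableEq ι]

/-- the sides of the triangle -/
def side (g : Fin 3 → ℂ) (k : Fin 3) : ℂ := g (k + 1) - g (k + 2)

lemma side_ne {g : Fin 3 → ℂ} (hg : Function.Injective g) (k : Fin 3) : side g k ≠ 0 :=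
  sub_ne_zero.2 (hg.ne (by revert k; decide))

lemma side_sum (g : Fin 3 → ℂ) : side g 0 + side g 1 + side g 2 = 0 := by
  change (g 1 - g 2) + (g 2 - g 0) + (g 0 - g 1) = 0
  ring

lemma re_ne_of_sq {a : ℂ} (h : a ^ 2 ∈ Complex.slitPlane) : a.re ≠ 0 := by
  intro h0
  rcases h with h1 | h1
  · rw [sq, Complex.mul_re, h0] at h1
    nlinarith [sq_nonneg a.im]
  · apply h1
    rw [sq, Complex.mul_im, h0]
    ring

lemma im_eq_zero_of_sq {a : ℂ} {r : ℝ} (hr : 0 < r) (h : a ^ 2 = r) : a.im = 0 ∧ a.re ≠ 0 := by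
  have h1 := congrArg Complex.re h
  have h2 := congrArg Complex.im h
  rw [sq, Complex.mul_re, Complex.ofReal_re] at h1
  rw [sq, Complex.mul_im, Complex.ofReal_im] at h2
  have h3 : a.re * a.im = 0 := by linarith
  rcases mul_eq_zero.1 h3 with h4 | h4
  · exfalso
    rw [h4] at h1
    nlinarith [sq_nonneg a.im]
  · refine ⟨h4, fun h5 => ?_⟩
    rw [h4, h5] at h1
    linarith

/-- the main case: the sides, a fixed labelling -/
theorem exists_core (i j : ι) (hij : j ≠ i) (hei : Function.Injective (e i)) (u : ℂ) (hu : u ≠ 0)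
    (g : Fin 3 → ℂ) (hgi : Function.Injective g) (hgc : cubic (e j) = cubic g)
    (him : (∀ k, 0 ≤ (u ^ 2 * side g k / side (e i) k).im) ∨ (∀ k, (u ^ 2 * side g k / side (e i) k).im ≤ 0))
    (hslit : ∃ k, u ^ 2 * side g k / side (e i) k ∈ Complex.slitPlane) :
    ∃ Z : CurveFn e, Z.IsCycle ∧ (∀ k, k ≠ i → k ≠ j → Z.h k = 0) ∧ (u * Z.reg i j).re ≠ 0 := by
  obtain ⟨k₀, hk₀⟩ := hslit
  have hp : ∀ k, side (e i) k ≠ 0 := side_ne hei
  have hq : ∀ k, side g k ≠ 0 := side_ne hgi
  have hps := side_sum (e i)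
  have hqs := side_sum g
  have hT : u ^ 2 ≠ 0 := pow_ne_zero 2 hu
  set D : ℂ := side g 1 * side (e i) 2 - side g 2 * side (e i) 1 with hD
  by_cases hD0 : D = 0
  · -- similar triangles
    set κ : ℂ := side g 0 / side (e i) 0 with hκ
    have hκ0 : κ ≠ 0 := div_ne_zero (hq 0) (hp 0)
    have hκ1 : side g 1 = κ * side (e i) 1 := by
      rw [hκ, div_mul_eq_mul_div, eq_div_iff (hp 0)]
      linear_combination (-side (e i) 1) * hqs + (side g 1) * hps - hD0
    have hκ2 : side g 2 = κ * side (e i) 2 := by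
      rw [hκ, div_mul_eq_mul_div, eq_div_iff (hp 0)]
      linear_combination (-side (e i) 2) * hqs + (side g 2) * hps + hD0
    have hκ' : side g 0 = κ * side (e i) 0 := by
      rw [hκ, div_mul_cancel₀ _ (hp 0)]
    have hall : ∀ k, side g k = κ * side (e i) k := by
      intro k
      fin_cases k
      · exact hκ'
      · exact hκ1
      · exact hκ2
    obtain ⟨b, hb⟩ := IsAlgClosed.exists_pow_nat_eq (κ ^ 3) (n := 2) (by norm_num)
    have hg : ∀ k, g k = κ * e i k + (g 0 - κ * e i 0) := by
      have e1 : g 0 - g 1 = κ * (e i 0 - e i 1) := hκ2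
      have e2 : g 2 - g 0 = κ * (e i 2 - e i 0) := hκ1
      intro k
      fin_cases k
      · change g 0 = κ * e i 0 + (g 0 - κ * e i 0)
        ring
      · change g 1 = κ * e i 1 + (g 0 - κ * e i 0)
        linear_combination -e1
      · change g 2 = κ * e i 2 + (g 0 - κ * e i 0)
        linear_combination e2
    obtain ⟨Z, h1, h2, h3⟩ := exists_graphCycle i j hij hei κ _ b hκ0 hb g hgc hg
    refine ⟨Z, h1, h2, ?_⟩
    rw [h3]
    have hb0 : b ≠ 0 := by
      rintro rfl
      apply pow_ne_zero 3 hκ0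
      rw [← hb]
      norm_num
    have hs : u ^ 2 * κ ∈ Complex.slitPlane := by
      have e1 : u ^ 2 * side g k₀ / side (e i) k₀ = u ^ 2 * κ := by
        rw [hall, ← mul_assoc, mul_div_cancel_right₀ _ (hp k₀)]
      rwa [e1] at hk₀
    have hsq : (u * conj (κ / b)) ^ 2 = ((‖κ‖ ^ 2)⁻¹ : ℝ) * (u ^ 2 * κ) := by
      have e1 : (κ / b) ^ 2 = κ⁻¹ := by
        rw [div_pow, hb]
        field_simp
      have e2 : conj κ * κ = ((‖κ‖ ^ 2 : ℝ) : ℂ) := by
        rw [mul_comm, Complex.mul_conj']
        push_cast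
        rfl
      have hκn : ((‖κ‖ ^ 2 : ℝ) : ℂ) ≠ 0 := by
        rw [← e2]
        exact mul_ne_zero ((_root_.map_ne_zero _).2 hκ0) hκ0
      have hκc : conj κ ≠ 0 := (_root_.map_ne_zero _).2 hκ0
      rw [mul_pow, ← map_pow, e1, map_inv₀, Complex.ofReal_inv, ← e2]
      field_simp
    have hpos : 0 < (‖κ‖ ^ 2)⁻¹ := by
      have := norm_pos_iff.2 hκ0
      positivity
    have hsq' : (u * conj (κ / b)) ^ 2 ∈ Complex.slitPlane := by
      rw [hsq]
      rcases hs with h | h
      · left
        rw [Complex.re_ofReal_mul]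
        positivity
      · right
        rw [Complex.im_ofReal_mul]
        exact mul_ne_zero hpos.ne' h
    have hre := re_ne_of_sq hsq'
    have hI := integral_cubic_pos (e i) hei
    have hl := Real.log_pos one_lt_two
    rw [← mul_assoc, Complex.re_mul_ofReal]
    exact mul_ne_zero hre (by positivity)
  · -- the curve of genus two
    set s : Fin 3 → ℂ := fun k => u ^ 2 * side g k / side (e i) k with hsdef
    have hs0 : ∀ k, s k ≠ 0 := fun k => div_ne_zero (mul_ne_zero hT (hq k)) (hp k)
    have hD1 : side g 2 * side (e i) 0 - side g 0 * side (e i) 2 = D := by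
      rw [hD]
      linear_combination (side g 2) * hps - (side (e i) 2) * hqs
    have hD2 : side g 0 * side (e i) 1 - side g 1 * side (e i) 0 = D := by
      rw [hD]
      linear_combination (side (e i) 1) * hqs - (side g 1) * hps
    have d0 : s 1 - s 2 = u ^ 2 * D / (side (e i) 1 * side (e i) 2) := by
      simp only [hsdef, hD]
      have := hp 1
      have := hp 2
      field_simp
    have d1 : s 2 - s 0 = u ^ 2 * D / (side (e i) 2 * side (e i) 0) := by
      rw [← hD1]
      simp only [hsdef]
      have := hp 0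
      have := hp 2
      field_simp
    have d2 : s 0 - s 1 = u ^ 2 * D / (side (e i) 0 * side (e i) 1) := by
      rw [← hD2]
      simp only [hsdef]
      have := hp 0
      have := hp 1
      field_simp
    have n0 : s 1 ≠ s 2 := by
      rw [← sub_ne_zero, d0]
      exact div_ne_zero (mul_ne_zero hT hD0) (mul_ne_zero (hp 1) (hp 2))
    have n1 : s 2 ≠ s 0 := by
      rw [← sub_ne_zero, d1]
      exact div_ne_zero (mul_ne_zero hT hD0) (mul_ne_zero (hp 2) (hp 0))
    have n2 : s 0 ≠ s 1 := by
      rw [← sub_ne_zero, d2]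
      exact div_ne_zero (mul_ne_zero hT hD0) (mul_ne_zero (hp 0) (hp 1))
    have hs : Function.Injective s := by
      intro k l hkl
      fin_cases k <;> fin_cases l
      · rfl
      · exact absurd hkl n2
      · exact absurd hkl.symm n1
      · exact absurd hkl.symm n2
      · rfl
      · exact absurd hkl n0
      · exact absurd hkl n1
      · exact absurd hkl.symm n0
      · rfl
    obtain ⟨c, hc, hFF⟩ := exists_integral_FF_ne s hs hs0 him k₀ hk₀
    set α : ℂ := side (e i) 0 * side (e i) 1 * side (e i) 2 / (u ^ 2 * D) with hα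
    set α' : ℂ := -(u ^ 2 * (side g 0 * side g 1 * side g 2)) / D with hα'
    have hα0 : α ≠ 0 := div_ne_zero (mul_ne_zero (mul_ne_zero (hp 0) (hp 1)) (hp 2)) (mul_ne_zero hT hD0)
    have hα'0 : α' ≠ 0 := div_ne_zero (neg_ne_zero.2 (mul_ne_zero hT (mul_ne_zero (mul_ne_zero (hq 0) (hq 1)) (hq 2)))) hD0
    obtain ⟨a, ha⟩ := IsAlgClosed.exists_pow_nat_eq (α ^ 3) (n := 2) (by norm_num)
    obtain ⟨b, hb⟩ := IsAlgClosed.exists_pow_nat_eq (-(α' ^ 3) / ∏ k, s k) (n := 2) (by norm_num)
    have he : ∀ k, e i k = α * s k + (e i 0 - α * s 0) := by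
      have e1 : e i 0 - e i 1 = α * (s 0 - s 1) := by
        rw [d2, hα]
        have h2 : side (e i) 2 = e i 0 - e i 1 := rfl
        rw [← h2]
        have := hp 0
        have := hp 1
        have := hp 2
        field_simp
      have e2 : e i 2 - e i 0 = α * (s 2 - s 0) := by
        rw [d1, hα]
        have h2 : side (e i) 1 = e i 2 - e i 0 := rfl
        rw [← h2]
        have := hp 0
        have := hp 1
        have := hp 2
        field_simp
      intro k
      fin_cases k
      · change e i 0 = α * s 0 + (e i 0 - α * s 0)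
        ring
      · change e i 1 = α * s 1 + (e i 0 - α * s 0)
        linear_combination -e1
      · change e i 2 = α * s 2 + (e i 0 - α * s 0)
        linear_combination e2
    have hg : ∀ k, g k = α' / s k + (g 0 - α' / s 0) := by
      have e1 : g 0 - g 1 = α' / s 0 - α' / s 1 := by
        have h1 : α' / s 0 - α' / s 1 = - α' * (s 0 - s 1) / (s 0 * s 1) := by
          have := hs0 0
          have := hs0 1
          field_simp
          ring
        rw [h1, d2, hα']
        have h2 : side g 2 = g 0 - g 1 := rfl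
        rw [← h2]
        simp only [hsdef]
        have := hp 0
        have := hp 1
        have := hq 0
        have := hq 1
        field_simp
      have e2 : g 2 - g 0 = α' / s 2 - α' / s 0 := by
        have h1 : α' / s 2 - α' / s 0 = - α' * (s 2 - s 0) / (s 2 * s 0) := by
          have := hs0 0
          have := hs0 2
          field_simp
          ring
        rw [h1, d1, hα']
        have h2 : side g 1 = g 2 - g 0 := rfl
        rw [← h2]
        simp only [hsdef]
        have := hp 0
        have := hp 2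
        have := hq 0
        have := hq 2
        field_simp
      intro k
      fin_cases k
      · change g 0 = α' / s 0 + (g 0 - α' / s 0)
        ring
      · change g 1 = α' / s 1 + (g 0 - α' / s 0)
        linear_combination -e1
      · change g 2 = α' / s 2 + (g 0 - α' / s 0)
        linear_combination e2
    obtain ⟨Z, h1, h2, h3⟩ := exists_sexCycle i j hij s hs hs0 α _ a hα0 ha he α' _ b hα'0 hb g hgc hg k₀ c hc
    refine ⟨Z, h1, h2, ?_⟩
    have hS : ∏ k, s k = (u ^ 2) ^ 3 * (side g 0 * side g 1 * side g 2) / (side (e i) 0 * side (e i) 1 * side (e i) 2) := by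
      rw [Fin.prod_univ_three]
      simp only [hsdef]
      have := hp 0
      have := hp 1
      have := hp 2
      field_simp
    -- the phase
    set ζ : ℂ := u * (α / a) * conj (α' / b) with hζ
    set p : ℂ := side (e i) 0 * side (e i) 1 * side (e i) 2 with hpdef
    set q : ℂ := side g 0 * side g 1 * side g 2 with hqdef
    have hp0 : p ≠ 0 := mul_ne_zero (mul_ne_zero (hp 0) (hp 1)) (hp 2)
    have hq0 : q ≠ 0 := mul_ne_zero (mul_ne_zero (hq 0) (hq 1)) (hq 2)
    have hζ2 : ζ ^ 2 = ((‖u‖ ^ 8 * ‖D‖ ^ 2 / ‖p‖ ^ 2 : ℝ) : ℂ) := by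
      have e1 : (α / a) ^ 2 = α⁻¹ := by
        rw [div_pow, ha]
        field_simp
      have e2 : (α' / b) ^ 2 = -(∏ k, s k) / α' := by
        rw [div_pow, hb]
        have : ∏ k, s k ≠ 0 := Finset.prod_ne_zero_iff.2 fun k _ => hs0 k
        field_simp
      have hn : ∀ z : ℂ, ((‖z‖ : ℂ)) ^ 2 = z * conj z := fun z => (Complex.mul_conj' z).symm
      have e3 : ((‖u‖ ^ 8 * ‖D‖ ^ 2 / ‖p‖ ^ 2 : ℝ) : ℂ) = (u * conj u) ^ 4 * (D * conj D) / (p * conj p) := by
        push_cast
        rw [← hn, ← hn, ← hn]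
        ring
      have hcu : conj u ≠ 0 := (_root_.map_ne_zero _).2 hu
      have hcD : conj D ≠ 0 := (_root_.map_ne_zero _).2 hD0
      have hcp : conj p ≠ 0 := (_root_.map_ne_zero _).2 hp0
      have hcq : conj q ≠ 0 := (_root_.map_ne_zero _).2 hq0
      rw [e3, hζ, mul_pow, mul_pow, e1, ← map_pow, e2, hS, hα, hα']
      simp only [map_div₀, map_neg, map_mul, map_pow]
      field_simp
    have hr : 0 < ‖u‖ ^ 8 * ‖D‖ ^ 2 / ‖p‖ ^ 2 := by
      have := norm_pos_iff.2 hu
      have := norm_pos_iff.2 hD0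
      have := norm_pos_iff.2 hp0
      positivity
    obtain ⟨hζim, hζre⟩ := im_eq_zero_of_sq hr hζ2
    have hfin : u * Z.reg i j = (((-8) * ζ.re : ℝ) : ℂ) * ∫ z, FF s c z := by
      rw [h3]
      have : (ζ.re : ℂ) = ζ := by
        apply Complex.ext
        · simp
        · simp [hζim]
      rw [Complex.ofReal_mul, this, hζ]
      push_cast
      ring
    rw [hfin, Complex.re_ofReal_mul]
    exact mul_ne_zero (mul_ne_zero (by norm_num) hζre) hFF

end Pool.Agent.J4.H67.REG
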