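import Pool.Agent.J4.H67.REG.Inv
set_option autoImplicit false

/-!
The places of `L = ℂ(x, y)`, `y² = P(x)`, over a point `z ∈ ℂ` with `P(z) ≠ 0`.
-/

namespace Pool.Agent.J4.H67.REG

open Polynomial MeasureTheory

lemma exists_fac (z : ℂ) {p : ℂ[X]} (hp : p ≠ 0) : ∃ (n : ℕ) (u : ℂ[X]), u.eval z ≠ 0 ∧ p = (X - C z) ^ n * u := by
  obtain ⟨q, h1, h2⟩ := exists_eq_pow_rootMultiplicity_mul_and_not_dvd p hp z
  refine ⟨_, q, ?_, h1⟩
  intro h
  exact h2 (dvd_iff_isRoot.2 h)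

lemma exists_fac2 (z : ℂ) {p q : ℂ[X]} (h : p ≠ 0 ∨ q ≠ 0) : ∃ (n : ℕ) (a b : ℂ[X]), (a.eval z ≠ 0 ∨ b.eval z ≠ 0) ∧
    p = (X - C z) ^ n * a ∧ q = (X - C z) ^ n * b := by
  by_cases hp : p = 0
  · have hq : q ≠ 0 := by
      rcases h with h | h
      · exact absurd hp h
      · exact h
    obtain ⟨n, u, h1, h2⟩ := exists_fac z hq
    exact ⟨n, 0, u, Or.inr h1, by rw [hp, mul_zero], h2⟩
  by_cases hq : q = 0
  · obtain ⟨n, u, h1, h2⟩ := exists_fac z hp
    exact ⟨n, u, 0, Or.inl h1, h2, by rw [hq, mul_zero]⟩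
  obtain ⟨n, u, h1, h2⟩ := exists_fac z hp
  obtain ⟨m, w, h3, h4⟩ := exists_fac z hq
  rcases le_total n m with hnm | hnm
  · refine ⟨n, u, (X - C z) ^ (m - n) * w, Or.inl h1, h2, ?_⟩
    rw [← mul_assoc, ← pow_add, Nat.add_sub_cancel' hnm]
    exact h4
  · refine ⟨m, (X - C z) ^ (n - m) * u, w, Or.inr h3, ?_, h4⟩
    rw [← mul_assoc, ← pow_add, Nat.add_sub_cancel' hnm]
    exact h2

variable {L : Type} [Field L] [Algebra ℂ L]

lemma Place.ext' {v v' : Place L} (h : v.O = v'.O) : v = v' := by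
  obtain ⟨O, h1, h2⟩ := v
  obtain ⟨O', h1', h2'⟩ := v'
  subst h
  rfl

/-- places with given values -/
lemma exists_place {A : Type} [CommRing A] [Algebra ℂ A] (φ : A →ₐ[ℂ] L) (hφ : Function.Injective φ)
    (ψ : A →ₐ[ℂ] ℂ) (t : A) (ht : t ≠ 0) (ht0 : ψ t = 0) : ∃ v : Place L, ∀ a, v.Val (φ a) (ψ a) := by
  let R : Subring L := φ.toRingHom.range
  let E : A ≃+* R := RingEquiv.ofBijective φ.toRingHom.rangeRestrict
    ⟨fun a b hab => hφ (congrArg Subtype.val hab), φ.toRingHom.rangeRestrict_surjective⟩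
  let ψ' : R →+* ℂ := ψ.toRingHom.comp E.symm.toRingHom
  have hE : ∀ a, E a = ⟨φ a, ⟨a, rfl⟩⟩ := fun a => rfl
  obtain ⟨B, h1, h2⟩ := Ideal.image_subset_nonunits_valuationSubring (RingHom.ker ψ') (RingHom.ker_ne_top ψ')
  have hval : ∀ a, φ a - algebraMap ℂ L (ψ a) ∈ B.nonunits := by
    intro a
    apply h2
    refine ⟨E (a - algebraMap ℂ A (ψ a)), ?_, ?_⟩
    · change ψ' _ = 0
      change ψ (E.symm (E _)) = 0
      rw [RingEquiv.symm_apply_apply, map_sub, AlgHom.commutes]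
      exact sub_self _
    · change φ _ = _
      rw [map_sub, AlgHom.commutes]
  refine ⟨⟨B, ?_, ?_⟩, hval⟩
  · intro c
    apply h1
    refine ⟨algebraMap ℂ A c, ?_⟩
    exact AlgHom.commutes _ _
  · rintro rfl
    have h3 := hval t
    rw [ht0, map_zero, sub_zero, ValuationSubring.mem_nonunits_iff_or] at h3
    rcases h3 with h3 | h3
    · exact ht (hφ (h3.trans (map_zero φ).symm))
    · exact h3 trivial

variable [Algebra (RatFunc ℂ) L] [IsScalarTower ℂ (RatFunc ℂ) L]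

variable (L) in
/-- the element `x` -/
noncomputable def xx : L := algebraMap (RatFunc ℂ) L RatFunc.X

lemma aeval_xx (p : ℂ[X]) : aeval (xx L) p = algebraMap (RatFunc ℂ) L (algebraMap ℂ[X] (RatFunc ℂ) p) := by
  have h : (aeval (xx L) : ℂ[X] →ₐ[ℂ] L) = (IsScalarTower.toAlgHom ℂ (RatFunc ℂ) L).comp (IsScalarTower.toAlgHom ℂ ℂ[X] (RatFunc ℂ)) := by
    apply Polynomial.algHom_ext
    rw [aeval_X]
    simp [xx]
  rw [h]
  rfl

lemma aeval_xx_inj : Function.Injective (aeval (xx L) : ℂ[X] → L) := by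
  intro p q h
  rw [aeval_xx, aeval_xx] at h
  exact IsFractionRing.injective ℂ[X] (RatFunc ℂ) ((algebraMap (RatFunc ℂ) L).injective h)

lemma aeval_xx_ne {p : ℂ[X]} (hp : p ≠ 0) : aeval (xx L) p ≠ 0 := by
  intro h
  exact hp (aeval_xx_inj (L := L) (h.trans (map_zero _).symm))

lemma aeval_sub_pow (z : ℂ) (n : ℕ) (u : ℂ[X]) : aeval (xx L) ((X - C z) ^ n * u) =
    (xx L - algebraMap ℂ L z) ^ n * aeval (xx L) u := by
  rw [map_mul, map_pow, map_sub, aeval_X, aeval_C]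

lemma xx_sub_ne (z : ℂ) : xx L - algebraMap ℂ L z ≠ 0 := by
  have h := aeval_xx_ne (L := L) (X_sub_C_ne_zero z)
  rwa [map_sub, aeval_X, aeval_C] at h

/-- `L = ℂ(x, y)` with `y² = P(x)` -/
structure IsHyp (P : ℂ[X]) (y : L) : Prop where
  eqn : y ^ 2 = aeval (xx L) P
  gen : ∀ h : L, ∃ p q r : ℂ[X], r ≠ 0 ∧ h = (aeval (xx L) p + aeval (xx L) q * y) / aeval (xx L) r

variable {P : ℂ[X]} {y : L}

lemma IsHyp.unit_num (H : IsHyp P y) (z y₀ : ℂ) (h0 : y₀ ≠ 0) (p q : ℂ[X])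
    (hne : aeval (xx L) p + aeval (xx L) q * y ≠ 0) : ∃ n : ℕ, ∀ v : Place L, v.Val (xx L) z → v.Val y y₀ →
      v.IsU ((aeval (xx L) p + aeval (xx L) q * y) / (xx L - algebraMap ℂ L z) ^ n) := by
  have hpq : p ≠ 0 ∨ q ≠ 0 := by
    by_contra hcon
    push Not at hcon
    apply hne
    rw [hcon.1, hcon.2, map_zero, zero_mul, add_zero]
  obtain ⟨n, a, b, hab, rfl, rfl⟩ := exists_fac2 z hpq
  have hz0 := xx_sub_ne (L := L) z
  have e1 : aeval (xx L) ((X - C z) ^ n * a) + aeval (xx L) ((X - C z) ^ n * b) * y =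
      (xx L - algebraMap ℂ L z) ^ n * (aeval (xx L) a + aeval (xx L) b * y) := by
    rw [aeval_sub_pow, aeval_sub_pow]
    ring
  rw [e1] at hne ⊢
  by_cases hg : a.eval z + b.eval z * y₀ = 0
  · have hg' : a.eval z + -(b.eval z * y₀) ≠ 0 := by
      intro h1
      have h2 : a.eval z = 0 := by linear_combination (hg + h1) / 2
      have h3 : b.eval z * y₀ = 0 := by linear_combination (hg - h1) / 2
      rcases mul_eq_zero.1 h3 with h3 | h3
      · rcases hab with h | h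
        · exact h h2
        · exact h h3
      · exact h0 h3
    have hU : ∀ v : Place L, v.Val (xx L) z → v.Val y y₀ → v.IsU (aeval (xx L) a + -(aeval (xx L) b * y)) := by
      intro v h1 h2
      exact ((h1.aeval a).add ((h1.aeval b).mul h2).neg).isU hg'
    have hN : aeval (xx L) (a ^ 2 - b ^ 2 * P) = (aeval (xx L) a + aeval (xx L) b * y) *
        (aeval (xx L) a + -(aeval (xx L) b * y)) := by
      rw [map_sub, map_mul, map_pow, map_pow, ← H.eqn]
      ring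
    by_cases hN0 : a ^ 2 - b ^ 2 * P = 0
    · refine ⟨0, fun v h1 h2 => ?_⟩
      exfalso
      rw [hN0, map_zero] at hN
      rcases mul_eq_zero.1 hN.symm with h3 | h3
      · exact hne (by rw [h3, mul_zero])
      · exact (hU v h1 h2).ne h3
    · obtain ⟨k, u, hu, hk⟩ := exists_fac z hN0
      rw [hk, aeval_sub_pow] at hN
      refine ⟨n + k, fun v h1 h2 => ?_⟩
      have h3 := hU v h1 h2
      have h4 : v.IsU (aeval (xx L) u) := (h1.aeval u).isU hu
      have h5 := h4.div h3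
      convert h5 using 1
      rw [div_eq_div_iff (pow_ne_zero _ hz0) h3.ne, pow_add]
      linear_combination (- (xx L - algebraMap ℂ L z) ^ n) * hN
  · refine ⟨n, fun v h1 h2 => ?_⟩
    rw [mul_div_cancel_left₀ _ (pow_ne_zero _ hz0)]
    exact ((h1.aeval a).add ((h1.aeval b).mul h2)).isU hg

lemma IsHyp.unit (H : IsHyp P y) (z y₀ : ℂ) (h0 : y₀ ≠ 0) (h : L) (hne : h ≠ 0) :
    ∃ n : ℤ, ∀ v : Place L, v.Val (xx L) z → v.Val y y₀ → v.IsU (h / (xx L - algebraMap ℂ L z) ^ n) := by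
  obtain ⟨p, q, r, hr, rfl⟩ := H.gen h
  have hr' := aeval_xx_ne (L := L) hr
  have hz0 := xx_sub_ne (L := L) z
  have hne' : aeval (xx L) p + aeval (xx L) q * y ≠ 0 := by
    intro h1
    apply hne
    rw [h1, zero_div]
  obtain ⟨n, hn⟩ := H.unit_num z y₀ h0 p q hne'
  obtain ⟨m, u, hu, rfl⟩ := exists_fac z hr
  refine ⟨(n : ℤ) - m, fun v h1 h2 => ?_⟩
  have h3 := (hn v h1 h2).div ((h1.aeval u).isU hu)
  convert h3 using 1
  rw [aeval_sub_pow, zpow_sub₀ hz0, zpow_natCast, zpow_natCast]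
  have hu0 : aeval (xx L) u ≠ 0 := ((h1.aeval u).isU hu).ne
  field_simp

lemma IsHyp.le_of_val (H : IsHyp P y) {z y₀ : ℂ} (h0 : y₀ ≠ 0) {v v' : Place L} (h1 : v.Val (xx L) z)
    (h2 : v.Val y y₀) (h1' : v'.Val (xx L) z) (h2' : v'.Val y y₀) : v.O ≤ v'.O := by
  intro h hh
  by_cases hne : h = 0
  · rw [hne]
    exact v'.O.zero_mem
  obtain ⟨n, hn⟩ := H.unit z y₀ h0 h hne
  have hz0 := xx_sub_ne (L := L) z
  have h3 := hn v h1 h2
  have h4 := hn v' h1' h2'
  have hlt : v.O.valuation (xx L - algebraMap ℂ L z) < 1 := Place.nu_iff.1 h1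
  have hpos : 0 < v.O.valuation (xx L - algebraMap ℂ L z) := zero_lt_iff.2 ((Valuation.ne_zero_iff _).2 hz0)
  have h5 : v.O.valuation h = v.O.valuation (xx L - algebraMap ℂ L z) ^ n := by
    unfold Place.IsU at h3
    rw [map_div₀, map_zpow₀] at h3
    exact (div_eq_one_iff_eq (zpow_ne_zero _ hpos.ne')).1 h3
  have hn0 : 0 ≤ n := by
    by_contra hcon
    push Not at hcon
    have h6 := one_lt_zpow_of_neg₀ hpos hlt hcon
    rw [← h5] at h6
    exact absurd ((v.O.valuation_le_one_iff h).2 hh) (not_le.2 h6)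
  obtain ⟨m, rfl⟩ := Int.eq_ofNat_of_zero_le hn0
  have h7 : h = (h / (xx L - algebraMap ℂ L z) ^ ((m : ℕ) : ℤ)) * (xx L - algebraMap ℂ L z) ^ m := by
    rw [zpow_natCast]
    field_simp
  rw [h7]
  exact v'.O.mul_mem _ _ h4.mem (pow_mem (Place.nu_mem h1') m)

lemma IsHyp.unique (H : IsHyp P y) {z y₀ : ℂ} (h0 : y₀ ≠ 0) {v v' : Place L} (h1 : v.Val (xx L) z)
    (h2 : v.Val y y₀) (h1' : v'.Val (xx L) z) (h2' : v'.Val y y₀) : v = v' :=
  Place.ext' (le_antisymm (H.le_of_val h0 h1 h2 h1' h2') (H.le_of_val h0 h1' h2' h1 h2))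

/-- the value of `y` -/
lemma IsHyp.val_y (H : IsHyp P y) {z y₀ : ℂ} (h0 : y₀ ^ 2 = P.eval z) {v : Place L} (h1 : v.Val (xx L) z) :
    v.Val y y₀ ∨ v.Val y (-y₀) := by
  have h2 : v.Val (y ^ 2) (y₀ ^ 2) := by
    rw [H.eqn, h0]
    exact h1.aeval P
  have h3 : (y - algebraMap ℂ L y₀) * (y - algebraMap ℂ L (-y₀)) ∈ v.O.nonunits := by
    unfold Place.Val at h2
    convert h2 using 1
    rw [map_neg, map_pow]
    ring
  exact Place.nu_prime h3

lemma exists_place_over (z : ℂ) : ∃ v : Place L, v.Val (xx L) z := by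
  obtain ⟨v, hv⟩ := exists_place (aeval (xx L)) aeval_xx_inj (aeval z) (X - C z) (X_sub_C_ne_zero z)
    (by rw [map_sub, aeval_X, aeval_C]; exact sub_self z)
  refine ⟨v, ?_⟩
  have h := hv X
  rwa [aeval_X, aeval_X] at h

/-- The fibre over `z` consists of two places, if there is an involution with `y ↦ - y`. -/
lemma IsHyp.fibre (H : IsHyp P y) (s : Invol L) (hsx : s.σ (xx L) = xx L) (hsy : s.σ y = -y) {z : ℂ} (hz : P.eval z ≠ 0) :
    ∃ v₁ v₂ : Place L, v₁ ≠ v₂ ∧ {v : Place L | v.Val (xx L) z} = {v₁, v₂} := by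
  obtain ⟨y₀, hy₀⟩ := IsAlgClosed.exists_pow_nat_eq (P.eval z) (n := 2) (by norm_num)
  have h0 : y₀ ≠ 0 := by
    rintro rfl
    apply hz
    rw [← hy₀]
    norm_num
  have key : ∀ η : ℂ, η ^ 2 = P.eval z → ∃ v : Place L, v.Val (xx L) z ∧ v.Val y η := by
    intro η hη
    obtain ⟨v, hv⟩ := exists_place_over (L := L) z
    rcases H.val_y hη hv with h | h
    · exact ⟨v, hv, h⟩
    · refine ⟨v.map s, ?_, ?_⟩
      · rw [Place.val_map, hsx]
        exact hv
      · rw [Place.val_map, hsy]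
        have := h.neg
        rwa [neg_neg] at this
  obtain ⟨v₁, h11, h12⟩ := key y₀ hy₀
  obtain ⟨v₂, h21, h22⟩ := key (-y₀) (by rw [neg_sq, hy₀])
  refine ⟨v₁, v₂, ?_, ?_⟩
  · rintro rfl
    have h1 := h12.unique h22
    apply h0
    linear_combination h1 / 2
  · ext v
    constructor
    · intro hv
      rcases H.val_y hy₀ hv with h | h
      · left
        exact H.unique h0 hv h h11 h12
      · right
        exact H.unique (neg_ne_zero.2 h0) hv h h21 h22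
    · rintro (rfl | h)
      · exact h11
      · rw [Set.mem_singleton_iff.1 h]
        exact h21

lemma IsHyp.sum_fibre (H : IsHyp P y) (s : Invol L) (hsx : s.σ (xx L) = xx L) (hsy : s.σ y = -y) {z : ℂ} (hz : P.eval z ≠ 0)
    (G : Place L → ℂ) (g : ℂ) (hG : ∀ v : Place L, v.Val (xx L) z → ∀ η : ℂ, η ^ 2 = P.eval z → v.Val y η → G v = g) :
    ∑ᶠ v ∈ {v : Place L | v.Val (xx L) z}, G v = 2 * g := by
  obtain ⟨v₁, v₂, hne, h⟩ := H.fibre s hsx hsy hz
  have hG' : ∀ v ∈ {v : Place L | v.Val (xx L) z}, G v = g := by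
    intro v hv
    obtain ⟨y₀, hy₀⟩ := IsAlgClosed.exists_pow_nat_eq (P.eval z) (n := 2) (by norm_num)
    rcases H.val_y hy₀ hv with h | h
    · exact hG v hv _ hy₀ h
    · exact hG v hv _ (by rw [neg_sq, hy₀]) h
  rw [h, finsum_mem_pair hne, hG' v₁ (by rw [h]; simp), hG' v₂ (by rw [h]; simp)]
  ring

end Pool.Agent.J4.H67.REG
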