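import Pool.Agent.J4.H67.REG.Fib
set_option autoImplicit false

/-!
The field `ℂ(x)(√P)`, its involutions, and the regulator of a curve with this field.
-/

namespace Pool.Agent.J4.H67.REG

open Polynomial MeasureTheory

open scoped ComplexConjugate

/-- a polynomial with a simple root -/
def Simple (P : ℂ[X]) : Prop := ∃ z, P.eval z = 0 ∧ (derivative P).eval z ≠ 0

lemma Simple.not_sq {P : ℂ[X]} (hP : Simple P) (b : RatFunc ℂ) : b ^ 2 ≠ algebraMap ℂ[X] (RatFunc ℂ) P := by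
  intro h
  obtain ⟨z, h1, h2⟩ := hP
  obtain ⟨q, rfl⟩ := IsIntegrallyClosed.exists_algebraMap_eq_of_isIntegral_pow (R := ℂ[X]) (x := b) (n := 2)
    (by norm_num) (by rw [h]; exact isIntegral_algebraMap)
  rw [← map_pow] at h
  have h3 : q ^ 2 = P := IsFractionRing.injective ℂ[X] (RatFunc ℂ) h
  apply h2
  rw [← h3] at h1 ⊢
  rw [eval_pow] at h1
  have h4 : q.eval z = 0 := pow_eq_zero_iff (two_ne_zero) |>.1 h1
  rw [derivative_pow, eval_mul, eval_mul]
  simp [h4]

/-- the polynomial `Y² - P` over `ℂ(x)` -/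
noncomputable def hpol (P : ℂ[X]) : (RatFunc ℂ)[X] := X ^ 2 - C (algebraMap ℂ[X] (RatFunc ℂ) P)

lemma Simple.irr {P : ℂ[X]} (hP : Simple P) : Irreducible (hpol P) :=
  X_pow_sub_C_irreducible_of_prime Nat.prime_two hP.not_sq

lemma hpol_natDegree (P : ℂ[X]) : (hpol P).natDegree = 2 := natDegree_X_pow_sub_C

lemma hpol_eval₂ (P : ℂ[X]) {S : Type} [CommRing S] (g : RatFunc ℂ →+* S) (a : S) :
    eval₂ g a (hpol P) = a ^ 2 - g (algebraMap ℂ[X] (RatFunc ℂ) P) := by
  unfold hpol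
  rw [eval₂_sub, eval₂_pow, eval₂_X, eval₂_C]

lemma hpol_monic (P : ℂ[X]) : (hpol P).Monic := monic_X_pow_sub_C _ (by norm_num)

/-- the field `ℂ(x)(√P)` -/
abbrev HF (P : ℂ[X]) : Type := AdjoinRoot (hpol P)

section
variable (P : ℂ[X]) [hP : Fact (Irreducible (hpol P))]

/-- the square root of `P` -/
noncomputable def yy : HF P := AdjoinRoot.root (hpol P)

instance instFin : FiniteDimensional (RatFunc ℂ) (HF P) :=
  (AdjoinRoot.powerBasis (hpol_monic P).ne_zero).finite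

lemma yy_sq : (yy P) ^ 2 = aeval (xx (HF P)) P := by
  rw [aeval_xx]
  have h := AdjoinRoot.eval₂_root (hpol P)
  rw [hpol_eval₂] at h
  exact sub_eq_zero.1 h

lemma exists_ab (h : HF P) : ∃ a b : RatFunc ℂ, h = algebraMap _ _ a + algebraMap _ _ b * yy P := by
  induction h using AdjoinRoot.induction_on with
  | ih p =>
    have h1 : AdjoinRoot.mk (hpol P) p = AdjoinRoot.mk (hpol P) (p %ₘ (hpol P)) := by
      rw [AdjoinRoot.mk_eq_mk]
      refine ⟨p /ₘ (hpol P), ?_⟩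
      have := modByMonic_add_div p (hpol P)
      linear_combination -this
    have h2 : (p %ₘ (hpol P)).natDegree < 2 := by
      have := natDegree_modByMonic_lt p (hpol_monic P) (by
        intro h
        have := hpol_natDegree P
        rw [h, natDegree_one] at this
        omega)
      rwa [hpol_natDegree] at this
    have h3 := eq_X_add_C_of_natDegree_le_one (by omega : (p %ₘ (hpol P)).natDegree ≤ 1)
    refine ⟨(p %ₘ (hpol P)).coeff 0, (p %ₘ (hpol P)).coeff 1, ?_⟩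
    rw [h1, h3]
    simp only [map_add, map_mul, AdjoinRoot.mk_X, AdjoinRoot.mk_C, coeff_add, coeff_C_mul, coeff_X_zero, coeff_C_zero,
      mul_zero, zero_add, coeff_X_one, coeff_C_succ, mul_one, add_zero]
    rw [add_comm]
    rfl

lemma isHyp : IsHyp P (yy P) := by
  refine ⟨yy_sq P, fun h => ?_⟩
  obtain ⟨a, b, rfl⟩ := exists_ab P h
  refine ⟨a.num * b.denom, b.num * a.denom, a.denom * b.denom, mul_ne_zero a.denom_ne_zero b.denom_ne_zero, ?_⟩
  have ha : algebraMap (RatFunc ℂ) (HF P) a = aeval (xx (HF P)) a.num / aeval (xx (HF P)) a.denom := by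
    rw [aeval_xx, aeval_xx, ← map_div₀, RatFunc.num_div_denom]
  have hb : algebraMap (RatFunc ℂ) (HF P) b = aeval (xx (HF P)) b.num / aeval (xx (HF P)) b.denom := by
    rw [aeval_xx, aeval_xx, ← map_div₀, RatFunc.num_div_denom]
  have h1 : aeval (xx (HF P)) a.denom ≠ 0 := aeval_xx_ne a.denom_ne_zero
  have h2 : aeval (xx (HF P)) b.denom ≠ 0 := aeval_xx_ne b.denom_ne_zero
  rw [ha, hb, map_mul, map_mul, map_mul]
  field_simp

lemma yy_ne (h0 : P ≠ 0) : yy P ≠ 0 := by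
  intro h
  have h1 := yy_sq P
  rw [h] at h1
  exact aeval_xx_ne (L := HF P) h0 (by rw [← h1]; norm_num)

/-- A ring homomorphism of the base field which fixes `P`, and a sign, give an endomorphism. -/
noncomputable def endo (φ : RatFunc ℂ →+* RatFunc ℂ) (hφ : φ (algebraMap ℂ[X] _ P) = algebraMap ℂ[X] _ P)
    (ε : HF P) (hε : ε ^ 2 = 1) : HF P →+* HF P :=
  AdjoinRoot.lift ((algebraMap (RatFunc ℂ) (HF P)).comp φ) (ε * yy P) (by
    rw [hpol_eval₂, mul_pow, hε, one_mul, yy_sq, aeval_xx, RingHom.comp_apply, hφ, sub_self])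

variable {P}
lemma endo_alg (φ : RatFunc ℂ →+* RatFunc ℂ) (hφ : φ (algebraMap ℂ[X] _ P) = algebraMap ℂ[X] _ P)
    (ε : HF P) (hε : ε ^ 2 = 1) (a : RatFunc ℂ) : endo P φ hφ ε hε (algebraMap _ _ a) = algebraMap _ _ (φ a) := by
  unfold endo
  exact AdjoinRoot.lift_of _

lemma endo_yy (φ : RatFunc ℂ →+* RatFunc ℂ) (hφ : φ (algebraMap ℂ[X] _ P) = algebraMap ℂ[X] _ P)
    (ε : HF P) (hε : ε ^ 2 = 1) : endo P φ hφ ε hε (yy P) = ε * yy P := by
  unfold endo
  exact AdjoinRoot.lift_root _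

lemma endo_endo (φ : RatFunc ℂ →+* RatFunc ℂ) (hφ : φ (algebraMap ℂ[X] _ P) = algebraMap ℂ[X] _ P)
    (hφ2 : ∀ a, φ (φ a) = a)
    (ε : HF P) (hε : ε ^ 2 = 1) (hε' : endo P φ hφ ε hε ε = ε) (a : HF P) :
    endo P φ hφ ε hε (endo P φ hφ ε hε a) = a := by
  obtain ⟨a, b, rfl⟩ := exists_ab P a
  simp only [map_add, map_mul, endo_alg, endo_yy, hφ2, hε']
  linear_combination (algebraMap _ (HF P) b * yy P) * hε

variable (P)
/-- the involution `y ↦ - y` -/
noncomputable def inv1 : Invol (HF P) where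
  σ := endo P (RingHom.id _) rfl (-1) (by norm_num)
  cst c := by
    rw [IsScalarTower.algebraMap_apply ℂ (RatFunc ℂ) (HF P), endo_alg]
    rfl
  inv := endo_endo _ _ (fun _ => rfl) _ _ (by rw [map_neg, map_one])

lemma inv1_xx : (inv1 P).σ (xx (HF P)) = xx (HF P) := endo_alg (RingHom.id _) rfl (-1) (by norm_num) _

lemma inv1_yy : (inv1 P).σ (yy P) = - yy P := by
  exact (endo_yy (RingHom.id _) rfl (-1) (by norm_num)).trans (neg_one_mul _)

end

lemma negX_inj : Function.Injective ((algebraMap ℂ[X] (RatFunc ℂ)).comp (compRingHom (-X))) := by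
  intro p q h
  have h1 : p.comp (-X) = q.comp (-X) := IsFractionRing.injective ℂ[X] (RatFunc ℂ) h
  have h2 := congrArg (fun r : ℂ[X] => r.comp (-X)) h1
  simp only [comp_assoc, neg_comp, X_comp, neg_neg, comp_X] at h2
  exact h2

/-- the automorphism `x ↦ - x` of `ℂ(x)` -/
noncomputable def negX : RatFunc ℂ →+* RatFunc ℂ := IsFractionRing.lift (A := ℂ[X]) (K := RatFunc ℂ) negX_inj

lemma negX_alg (p : ℂ[X]) : negX (algebraMap ℂ[X] _ p) = algebraMap ℂ[X] _ (p.comp (-X)) :=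
  IsFractionRing.lift_algebraMap negX_inj p

lemma negX_negX (a : RatFunc ℂ) : negX (negX a) = a := by
  rw [← RatFunc.num_div_denom a, map_div₀, map_div₀, negX_alg, negX_alg, negX_alg, negX_alg, comp_assoc, comp_assoc]
  simp

section
variable (P : ℂ[X]) [hP : Fact (Irreducible (hpol P))]

/-- the involution `x ↦ - x`, `y ↦ y`, for an even polynomial `P` -/
noncomputable def inv2 (h : P.comp (-X) = P) : Invol (HF P) where
  σ := endo P negX (by rw [negX_alg, h]) 1 (by norm_num)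
  cst c := by
    rw [IsScalarTower.algebraMap_apply ℂ (RatFunc ℂ) (HF P), endo_alg]
    congr 1
    rw [IsScalarTower.algebraMap_apply ℂ ℂ[X] (RatFunc ℂ), negX_alg]
    simp
  inv := endo_endo _ _ negX_negX _ _ (by rw [map_one])

lemma inv2_xx (h : P.comp (-X) = P) : (inv2 P h).σ (xx (HF P)) = - xx (HF P) := by
  have h1 : (RatFunc.X : RatFunc ℂ) = algebraMap ℂ[X] _ X := RatFunc.algebraMap_X.symm
  have h2 : (inv2 P h).σ (xx (HF P)) = algebraMap _ _ (negX RatFunc.X) :=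
    endo_alg negX (by rw [negX_alg, h]) 1 (by norm_num) _
  rw [h2, h1, negX_alg]
  unfold xx
  simp

lemma inv2_yy (h : P.comp (-X) = P) : (inv2 P h).σ (yy P) = yy P := by
  exact (endo_yy negX (by rw [negX_alg, h]) 1 (by norm_num)).trans (one_mul _)

end

variable {ι : Type} {e : ι → Fin 3 → ℂ}

/-- the regulator of a curve with a function, for `L = ℂ(x)(√P)` -/
lemma reg_hyp (Z : CurveFn e) {P : ℂ[X]} {y : Z.L} (H : IsHyp P y) (s : Invol Z.L) (hsx : s.σ Z.x = Z.x)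
    (hsy : s.σ y = -y) (φ : ℂ → ℂ) (r : ι → ℂ → ℂ) (B : Set ℂ) (hB : B.Countable) (hP : ∀ z ∉ B, P.eval z ≠ 0)
    (hv : ∀ z ∉ B, ∀ v : Place Z.L, v.Val Z.x z → ∀ η : ℂ, η ^ 2 = P.eval z → η ≠ 0 → v.Val y η →
      v.Val Z.f (φ z) ∧ ∀ i, v.Val (Z.h i) (r i z / η)) (i j : ι) :
    Z.reg i j = ∫ z, 2 * ((Real.log ‖φ z‖ : ℂ) * (r i z * conj (r j z)) / (‖P.eval z‖ : ℂ)) := by
  change ∫ z : ℂ, ∑ᶠ v ∈ {v : Place Z.L | v.Val Z.x z},
    (Real.log ‖v.value Z.f‖ : ℂ) * v.value (Z.h i) * conj (v.value (Z.h j)) = _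
  apply integral_congr_ae
  filter_upwards [hB.ae_notMem volume] with z hz
  refine IsHyp.sum_fibre (L := Z.L) H s hsx hsy (hP z hz) _ _ ?_
  intro v hv1 η hη hv2
  have hη0 : η ≠ 0 := by
    rintro rfl
    apply hP z hz
    rw [← hη]
    norm_num
  obtain ⟨h1, h2⟩ := hv z hz v hv1 η hη hη0 hv2
  rw [h1.value, (h2 i).value, (h2 j).value]
  have h3 : (‖P.eval z‖ : ℂ) = η * conj η := by
    rw [← hη, norm_pow, Complex.mul_conj']
    push_cast
    rfl
  have h4 : conj η ≠ 0 := (_root_.map_ne_zero _).2 hη0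
  rw [h3, map_div₀]
  field_simp

end Pool.Agent.J4.H67.REG
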