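import Pool.Agent.J4.H67.REG.Sign
set_option autoImplicit false

/-!
The sign of the integral, both half planes; the integral of `1 / |cubic|`; the sign pattern of
`3 × 3` matrices with vanishing row and column sums.
-/

namespace Pool.Agent.J4.H67.REG

open MeasureTheory Set

open scoped ComplexConjugate

lemma QQ_conj (s : Fin 3 → ℂ) (z : ℂ) : QQ (fun k => conj (s k)) (conj z) = conj (QQ s z) := by
  unfold QQ
  simp

lemma FF_conj (s : Fin 3 → ℂ) (c z : ℂ) : FF (fun k => conj (s k)) (conj c) (conj z) = conj (FF s c z) := by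
  unfold FF
  rw [QQ_conj, Complex.norm_conj]
  have h1 : (conj z - conj c) / (conj z + conj c) = conj ((z - c) / (z + c)) := by simp
  rw [h1, Complex.norm_conj, map_div₀, map_mul, Complex.conj_ofReal, Complex.conj_ofReal]

lemma integral_FF_conj (s : Fin 3 → ℂ) (c : ℂ) :
    (∫ z, FF (fun k => conj (s k)) (conj c) z).re = (∫ z, FF s c z).re := by
  have h1 : ∫ z, FF (fun k => conj (s k)) (conj c) z = ∫ z, FF (fun k => conj (s k)) (conj c) (conj z) :=
    ((Complex.conjLIE.measurePreserving).integral_comp Complex.conjLIE.toHomeomorph.measurableEmbedding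
      (fun z => FF (fun k => conj (s k)) (conj c) z)).symm
  rw [h1]
  simp only [FF_conj]
  rw [integral_conj, Complex.conj_re]

lemma exists_sqrt {a : ℂ} (ha : a ∈ Complex.slitPlane) : ∃ c : ℂ, c ^ 2 = a ∧ 0 < c.re := by
  obtain ⟨t, ht⟩ := IsAlgClosed.exists_pow_nat_eq a (n := 2) (by norm_num)
  have h0 : t.re ≠ 0 := by
    intro h
    have h1 : a.re = - (t.im ^ 2) := by
      rw [← ht, sq, Complex.mul_re, h]
      ring
    have h2 : a.im = 0 := by
      rw [← ht, sq, Complex.mul_im, h]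
      ring
    rcases ha with h3 | h3
    · rw [h1] at h3
      nlinarith [sq_nonneg t.im]
    · exact h3 h2
  rcases lt_or_gt_of_ne h0 with h | h
  · exact ⟨-t, by rw [neg_sq, ht], by simpa using h⟩
  · exact ⟨t, ht, h⟩

/-- The real part of the integral does not vanish. -/
theorem exists_integral_FF_ne (s : Fin 3 → ℂ) (hs : Function.Injective s) (hs0 : ∀ k, s k ≠ 0)
    (him : (∀ k, 0 ≤ (s k).im) ∨ (∀ k, (s k).im ≤ 0)) (k₀ : Fin 3) (hk : s k₀ ∈ Complex.slitPlane) :
    ∃ c : ℂ, c ^ 2 = s k₀ ∧ (∫ z, FF s c z).re ≠ 0 := by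
  obtain ⟨c, hc, hc0⟩ := exists_sqrt hk
  refine ⟨c, hc, ?_⟩
  have him2 : (s k₀).im = 2 * (c.re * c.im) := by
    rw [← hc, sq, Complex.mul_im]
    ring
  rcases him with him | him
  · apply ne_of_lt
    apply integral_FF_neg s hs hs0 him k₀ c hc hc0
    have h1 := him k₀
    rw [him2] at h1
    by_contra hcon
    push Not at hcon
    nlinarith [mul_neg_of_pos_of_neg hc0 hcon]
  · rw [← integral_FF_conj]
    apply ne_of_lt
    apply integral_FF_neg (fun k => conj (s k)) _ _ _ k₀ (conj c)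
    · rw [← hc, map_pow]
    · simpa using hc0
    · have h1 := him k₀
      rw [him2] at h1
      by_contra hcon
      push Not at hcon
      simp only [Complex.conj_im] at hcon
      nlinarith [mul_pos hc0 (by linarith : 0 < c.im)]
    · intro i j hij
      exact hs (star_injective hij)
    · intro k h
      apply hs0 k
      exact (_root_.map_eq_zero _).1 h
    · intro k
      simp only [Complex.conj_im]
      linarith [him k]

/-- the integral of `1 / |cubic|` -/
lemma integral_cubic_pos (e : Fin 3 → ℂ) (he : Function.Injective e) : 0 < ∫ z : ℂ, ‖∏ k, (z - e k)‖⁻¹ := by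
  have hI : Integrable (fun z : ℂ => ((‖∏ k, (z - e k)‖⁻¹ : ℝ) : ℂ)) := by
    refine integrable_prod e he (fun _ => 1) (fun _ => by norm_num) (fun _ => by norm_num) 0 ?_ 1 _ ?_ ?_
    · simp
      norm_num
    · apply Measurable.aestronglyMeasurable
      fun_prop
    · intro z hz
      rw [Complex.norm_real, Real.norm_of_nonneg (by positivity), Real.rpow_zero, one_mul, one_mul, norm_prod,
        ← Finset.prod_inv_distrib]
      simp only [Real.rpow_neg_one]
      exact le_refl _
  have hI' : Integrable (fun z : ℂ => ‖∏ k, (z - e k)‖⁻¹) := by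
    refine hI.re.congr (Filter.Eventually.of_forall fun z => ?_)
    exact Complex.ofReal_re _
  rw [integral_pos_iff_support_of_nonneg (fun z => by positivity) hI']
  have h1 : (Function.support fun z : ℂ => ‖∏ k, (z - e k)‖⁻¹) = (Set.range e)ᶜ := by
    ext z
    simp only [Function.mem_support, ne_eq, inv_eq_zero, norm_eq_zero, Finset.prod_eq_zero_iff, Finset.mem_univ,
      true_and, Set.mem_compl_iff, Set.mem_range, not_exists, sub_eq_zero]
    constructor
    · intro h k hk
      exact h k hk.symm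
    · intro h k hk
      exact h k hk.symm
  rw [h1, measure_compl₀ (Set.finite_range e).measurableSet.nullMeasurableSet]
  · rw [(Set.finite_range e).countable.measure_zero]
    simp
  · rw [(Set.finite_range e).countable.measure_zero]
    simp

lemma fin3_cases : ∀ k i : Fin 3, k = i ∨ k = i + 1 ∨ k = i + 2 := by decide

lemma fin3_a : ∀ i j : Fin 3, i + (j - i) = j ∧ i + 1 + (j - i) = j + 1 ∧ i + 2 + (j - i) = j + 2 := by decide

lemma fin3_b : ∀ i j : Fin 3, i + j - i = j ∧ i + j - (i + 1) = j + 2 ∧ i + j - (i + 2) = j + 1 := by decide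

lemma pattern_pos (N : Fin 3 → Fin 3 → ℝ) (hrow : ∀ i j, N i j + N i (j + 1) + N i (j + 2) = 0)
    (hcol : ∀ i j, N i j + N (i + 1) j + N (i + 2) j = 0) (i j : Fin 3) (hmax : ∀ k l, |N k l| ≤ N i j) :
    ∃ m : Fin 3, ((∀ k, 0 ≤ N k (k + m)) ∧ N i (i + m) = N i j) ∨ ((∀ k, 0 ≤ N k (m - k)) ∧ N i (m - i) = N i j) := by
  have R0 := hrow i j
  have R1 := hrow (i + 1) j
  have R2 := hrow (i + 2) j
  have C0 := hcol i j
  have C1 := hcol i (j + 1)
  have C2 := hcol i (j + 2)
  have a0 := abs_le.1 (hmax i j)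
  have a1 := abs_le.1 (hmax i (j + 1))
  have a2 := abs_le.1 (hmax i (j + 2))
  have a3 := abs_le.1 (hmax (i + 1) j)
  have a4 := abs_le.1 (hmax (i + 2) j)
  by_cases h : 0 ≤ N (i + 1) (j + 1) ∧ 0 ≤ N (i + 2) (j + 2)
  · refine ⟨j - i, Or.inl ⟨fun k => ?_, by rw [(fin3_a i j).1]⟩⟩
    rcases fin3_cases k i with rfl | rfl | rfl
    · rw [(fin3_a _ j).1]
      linarith
    · rw [(fin3_a i j).2.1]
      exact h.1
    · rw [(fin3_a i j).2.2]
      exact h.2
  · refine ⟨i + j, Or.inr ⟨fun k => ?_, by rw [(fin3_b i j).1]⟩⟩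
    have h' : N (i + 1) (j + 1) < 0 ∨ N (i + 2) (j + 2) < 0 := by
      by_contra hcon
      push Not at hcon
      exact h hcon
    rcases fin3_cases k i with rfl | rfl | rfl
    · rw [(fin3_b _ j).1]
      linarith
    · rw [(fin3_b i j).2.1]
      rcases h' with h' | h' <;> linarith
    · rw [(fin3_b i j).2.2]
      rcases h' with h' | h' <;> linarith

/-- **The sign pattern.** -/
theorem exists_pattern (N : Fin 3 → Fin 3 → ℝ) (hrow : ∀ i, N i 0 + N i 1 + N i 2 = 0)
    (hcol : ∀ j, N 0 j + N 1 j + N 2 j = 0) (hN : ∃ i j, N i j ≠ 0) :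
    ∃ m : Fin 3, (((∀ k, 0 ≤ N k (k + m)) ∨ (∀ k, N k (k + m) ≤ 0)) ∧ ∃ k, N k (k + m) ≠ 0) ∨
      (((∀ k, 0 ≤ N k (m - k)) ∨ (∀ k, N k (m - k) ≤ 0)) ∧ ∃ k, N k (m - k) ≠ 0) := by
  obtain ⟨⟨i, j⟩, -, hmax⟩ := Finset.exists_max_image Finset.univ (fun p : Fin 3 × Fin 3 => |N p.1 p.2|) Finset.univ_nonempty
  have hmax' : ∀ k l, |N k l| ≤ |N i j| := fun k l => hmax (k, l) (Finset.mem_univ _)
  have hne : N i j ≠ 0 := by
    obtain ⟨k, l, hkl⟩ := hN
    intro h
    have := hmax' k l
    rw [h, abs_zero] at this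
    exact hkl (abs_eq_zero.1 (le_antisymm this (abs_nonneg _)))
  have hrow' : ∀ i j, N i j + N i (j + 1) + N i (j + 2) = 0 := by
    intro i j
    have := hrow i
    fin_cases j
    · exact this
    · change N i 1 + N i 2 + N i 0 = 0
      linarith
    · change N i 2 + N i 0 + N i 1 = 0
      linarith
  have hcol' : ∀ i j, N i j + N (i + 1) j + N (i + 2) j = 0 := by
    intro i j
    have := hcol j
    fin_cases i
    · exact this
    · change N 1 j + N 2 j + N 0 j = 0
      linarith
    · change N 2 j + N 0 j + N 1 j = 0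
      linarith
  rcases lt_or_gt_of_ne hne with h | h
  · obtain ⟨m, hm⟩ := pattern_pos (fun i j => - N i j) (fun i j => by linarith [hrow' i j]) (fun i j => by linarith [hcol' i j])
      i j (fun k l => by rw [abs_neg, ← abs_of_neg h]; exact hmax' k l)
    refine ⟨m, ?_⟩
    rcases hm with ⟨h1, h2⟩ | ⟨h1, h2⟩
    · exact Or.inl ⟨Or.inr fun k => by linarith [h1 k], i, by rw [neg_injective h2]; exact hne⟩
    · exact Or.inr ⟨Or.inr fun k => by linarith [h1 k], i, by rw [neg_injective h2]; exact hne⟩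
  · obtain ⟨m, hm⟩ := pattern_pos N hrow' hcol' i j (fun k l => by rw [← abs_of_pos h]; exact hmax' k l)
    refine ⟨m, ?_⟩
    rcases hm with ⟨h1, h2⟩ | ⟨h1, h2⟩
    · exact Or.inl ⟨Or.inl h1, i, by rw [h2]; exact hne⟩
    · exact Or.inr ⟨Or.inl h1, i, by rw [h2]; exact hne⟩

end Pool.Agent.J4.H67.REG
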