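import Pool.Agent.J4.H67.REG.Fld
import Pool.Agent.J4.H67.REG.Sign2
set_option autoImplicit false
set_option linter.unusedSectionVars false

/-!
Curves with functions on products of elliptic curves: the coordinates, and three kinds of curves.
-/

namespace Pool.Agent.J4.H67.REG

open Polynomial MeasureTheory

open scoped ComplexConjugate

/-- a point of `E` over `L` together with the pull-back of the form -/
structure Pt (L : Type) [Field L] [Algebra ℂ L] [Algebra (RatFunc ℂ) L] (e : Fin 3 → ℂ) where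
  X : L
  Y : L
  h : L
  eqn : Y ^ 2 = aeval X (cubic e)
  ne : Y ≠ 0
  form : KaehlerDifferential.D ℂ L X = (h * Y) • KaehlerDifferential.D ℂ L (algebraMap (RatFunc ℂ) L RatFunc.X)

variable {L : Type} [Field L] [Algebra ℂ L] [Algebra (RatFunc ℂ) L] [IsScalarTower ℂ (RatFunc ℂ) L]

lemma cubic_eval (e : Fin 3 → ℂ) (z : ℂ) : (cubic e).eval z = ∏ k, (z - e k) := by
  unfold cubic
  rw [eval_prod]
  simp

lemma aeval_cubic (e : Fin 3 → ℂ) (a : L) : aeval a (cubic e) = ∏ k, (a - algebraMap ℂ L (e k)) := by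
  unfold cubic
  rw [map_prod]
  simp

lemma exists_const (e : Fin 3 → ℂ) : ∃ ξ η : ℂ, η ^ 2 = (cubic e).eval ξ ∧ η ≠ 0 := by
  obtain ⟨ξ, hξ⟩ := Infinite.exists_notMem_finset (Finset.univ.image e)
  obtain ⟨η, hη⟩ := IsAlgClosed.exists_pow_nat_eq ((cubic e).eval ξ) (n := 2) (by norm_num)
  refine ⟨ξ, η, hη, ?_⟩
  rintro rfl
  rw [cubic_eval] at hη
  have h0 : ∏ k, (ξ - e k) = 0 := by
    rw [← hη]
    norm_num
  rw [Finset.prod_eq_zero_iff] at h0
  obtain ⟨k, -, hk⟩ := h0
  exact hξ (Finset.mem_image.2 ⟨k, Finset.mem_univ k, (sub_eq_zero.1 hk).symm⟩)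

variable (L) in
/-- a constant point -/
noncomputable def cpt (e : Fin 3 → ℂ) : Pt L e where
  X := algebraMap ℂ L (exists_const e).choose
  Y := algebraMap ℂ L (exists_const e).choose_spec.choose
  h := 0
  eqn := by
    rw [← map_pow, (exists_const e).choose_spec.choose_spec.1, aeval_algebraMap_apply]
    rfl
  ne := (_root_.map_ne_zero _).2 (exists_const e).choose_spec.choose_spec.2
  form := by
    rw [zero_mul, zero_smul]
    exact Derivation.map_algebraMap _ _

variable {ι : Type} {e : ι → Fin 3 → ℂ}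

/-- the curve with given points and a given function -/
noncomputable def ofPts [FiniteDimensional (RatFunc ℂ) L] (pts : ∀ i, Pt L (e i)) (f : L) (hf : f ≠ 0) : CurveFn e where
  L := L
  X i := (pts i).X
  Y i := (pts i).Y
  eqn i := (pts i).eqn
  ne i := (pts i).ne
  h i := (pts i).h
  form i := (pts i).form
  f := f
  fne := hf

/-- points with two given coordinates and constants otherwise -/
noncomputable def two [DecidableEq ι] (i j : ι) (A : Pt L (e i)) (B : Pt L (e j)) (k : ι) : Pt L (e k) :=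
  if h : k = i then h ▸ A else if h : k = j then h ▸ B else cpt L (e k)

lemma two_i [DecidableEq ι] (i j : ι) (A : Pt L (e i)) (B : Pt L (e j)) : two i j A B i = A := by
  unfold two
  rw [dif_pos rfl]

lemma two_j [DecidableEq ι] (i j : ι) (hij : j ≠ i) (A : Pt L (e i)) (B : Pt L (e j)) : two i j A B j = B := by
  unfold two
  rw [dif_neg hij, dif_pos rfl]

lemma two_k [DecidableEq ι] (i j : ι) (A : Pt L (e i)) (B : Pt L (e j)) (k : ι) (h1 : k ≠ i) (h2 : k ≠ j) :
    two i j A B k = cpt L (e k) := by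
  unfold two
  rw [dif_neg h1, dif_neg h2]

/-- every point of `two i j A B` is one of the three -/
lemma two_cases [DecidableEq ι] (i j : ι) (A : Pt L (e i)) (B : Pt L (e j)) (M : ∀ k, Pt L (e k) → Prop)
    (hA : M i A) (hB : M j B) (hc : ∀ k, M k (cpt L (e k))) (k : ι) : M k (two i j A B k) := by
  unfold two
  split_ifs with h1 h2
  · subst h1
    exact hA
  · subst h2
    exact hB
  · exact hc k

lemma Simple_cubic {e : Fin 3 → ℂ} (he : Function.Injective e) : Simple (cubic e) := by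
  refine ⟨e 0, ?_, ?_⟩
  · rw [cubic_eval, Finset.prod_eq_zero (Finset.mem_univ 0) (sub_self _)]
  · unfold cubic
    rw [Fin.prod_univ_three]
    simp only [derivative_mul, derivative_sub, derivative_X, derivative_C, eval_add, eval_mul, eval_sub, eval_X,
      eval_C, eval_one, sub_zero, sub_self, zero_mul, one_mul, add_zero]
    exact mul_ne_zero (sub_ne_zero.2 (he.ne (by decide))) (sub_ne_zero.2 (he.ne (by decide)))

lemma D_aeval (a : L) (p : ℂ[X]) : KaehlerDifferential.D ℂ L (aeval a p) =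
    (aeval a (derivative p)) • KaehlerDifferential.D ℂ L a := Derivation.map_aeval _ _ _

section
variable (P : ℂ[X]) [hP : Fact (Irreducible (hpol P))]

/-- the point `X = A(x)`, `Y = b y`, of `Y² = F(X)`, if `F(A(x)) = b² P(x)` -/
noncomputable def ppt (e : Fin 3 → ℂ) (A : ℂ[X]) (b : ℂ) (hb : b ≠ 0) (hP0 : P ≠ 0)
    (h : (cubic e).comp A = C (b ^ 2) * P) : Pt (HF P) e where
  X := aeval (xx (HF P)) A
  Y := algebraMap ℂ _ b * yy P
  h := aeval (xx (HF P)) (derivative A) / (algebraMap ℂ _ b * yy P)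
  eqn := by
    rw [← aeval_comp, h, map_mul, aeval_C, mul_pow, yy_sq, map_pow]
  ne := mul_ne_zero ((_root_.map_ne_zero _).2 hb) (yy_ne P hP0)
  form := by
    rw [D_aeval, div_mul_cancel₀ _ (mul_ne_zero ((_root_.map_ne_zero _).2 hb) (yy_ne P hP0))]
    rfl

lemma ppt_val (e : Fin 3 → ℂ) (A : ℂ[X]) (b : ℂ) (hb : b ≠ 0) (hP0 : P ≠ 0)
    (h : (cubic e).comp A = C (b ^ 2) * P) (v : Place (HF P)) (z η : ℂ) (hz : v.Val (xx (HF P)) z) (hη : v.Val (yy P) η)
    (hη0 : η ≠ 0) : v.Val (ppt P e A b hb hP0 h).h ((derivative A).eval z / (b * η)) :=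
  (hz.aeval _).div ((Place.Val.const b).mul hη) (mul_ne_zero hb hη0)

/-- the point `X = α x⁻² + β`, `Y = b y x⁻³` -/
noncomputable def ipt (e : Fin 3 → ℂ) (α β b : ℂ) (hb : b ≠ 0) (hP0 : P ≠ 0)
    (h : aeval ((xx (HF P))⁻¹) ((cubic e).comp (C α * X ^ 2 + C β)) = (algebraMap ℂ _ b * yy P * (xx (HF P))⁻¹ ^ 3) ^ 2) :
    Pt (HF P) e where
  X := aeval ((xx (HF P))⁻¹) (C α * X ^ 2 + C β)
  Y := algebraMap ℂ _ b * yy P * (xx (HF P))⁻¹ ^ 3
  h := algebraMap ℂ _ (-(2 * α) / b) / yy P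
  eqn := by
    rw [← aeval_comp, h]
  ne := by
    have h1 : xx (HF P) ≠ 0 := by
      have := xx_sub_ne (L := HF P) 0
      rwa [map_zero, sub_zero] at this
    exact mul_ne_zero (mul_ne_zero ((_root_.map_ne_zero _).2 hb) (yy_ne P hP0)) (pow_ne_zero _ (inv_ne_zero h1))
  form := by
    have h1 : xx (HF P) ≠ 0 := by
      have := xx_sub_ne (L := HF P) 0
      rwa [map_zero, sub_zero] at this
    have h3 := yy_ne P hP0
    have h4 : algebraMap ℂ (HF P) b ≠ 0 := (_root_.map_ne_zero _).2 hb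
    rw [D_aeval, Derivation.leibniz_inv, smul_smul]
    change _ • KaehlerDifferential.D ℂ (HF P) (xx (HF P)) = _ • KaehlerDifferential.D ℂ (HF P) (xx (HF P))
    congr 1
    have h2 : derivative (C α * X ^ 2 + C β) = C (2 * α) * X := by
      simp only [derivative_add, derivative_mul, derivative_C, zero_mul, zero_add, derivative_X_pow, add_zero]
      rw [C_mul]
      push_cast
      ring
    rw [h2, map_mul, aeval_C, aeval_X, map_div₀, map_neg]
    field_simp

lemma ipt_val (e : Fin 3 → ℂ) (α β b : ℂ) (hb : b ≠ 0) (hP0 : P ≠ 0)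
    (h : aeval ((xx (HF P))⁻¹) ((cubic e).comp (C α * X ^ 2 + C β)) = (algebraMap ℂ _ b * yy P * (xx (HF P))⁻¹ ^ 3) ^ 2)
    (v : Place (HF P)) (η : ℂ) (hη : v.Val (yy P) η)
    (hη0 : η ≠ 0) : v.Val (ipt P e α β b hb hP0 h).h ((-(2 * α) / b) / η) :=
  (Place.Val.const _).div hη hη0

end

/-- the polynomial `∏ (x² - s_k)` -/
noncomputable def sex (s : Fin 3 → ℂ) : ℂ[X] := ∏ k, (X ^ 2 - C (s k))

lemma sex_eval (s : Fin 3 → ℂ) (z : ℂ) : (sex s).eval z = QQ s z := by
  unfold sex QQ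
  rw [eval_prod]
  simp

lemma sex_even (s : Fin 3 → ℂ) : (sex s).comp (-X) = sex s := by
  unfold sex
  rw [prod_comp]
  simp

lemma sex_ne (s : Fin 3 → ℂ) : sex s ≠ 0 := by
  unfold sex
  rw [Finset.prod_ne_zero_iff]
  intro k _
  exact X_pow_sub_C_ne_zero (by norm_num) _

lemma cubic_ne (e : Fin 3 → ℂ) : cubic e ≠ 0 := by
  unfold cubic
  rw [Finset.prod_ne_zero_iff]
  intro k _
  exact X_sub_C_ne_zero _

lemma Simple_sex {s : Fin 3 → ℂ} (hs : Function.Injective s) (hs0 : ∀ k, s k ≠ 0) : Simple (sex s) := by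
  obtain ⟨t, ht⟩ := IsAlgClosed.exists_pow_nat_eq (s 0) (n := 2) (by norm_num)
  have ht0 : t ≠ 0 := by
    rintro rfl
    apply hs0 0
    rw [← ht]
    norm_num
  refine ⟨t, ?_, ?_⟩
  · rw [sex_eval]
    unfold QQ
    rw [Finset.prod_eq_zero (Finset.mem_univ 0)]
    rw [ht, sub_self]
  · unfold sex
    rw [Fin.prod_univ_three]
    simp only [derivative_mul, derivative_sub, derivative_X_pow, derivative_C, eval_add, eval_mul, eval_sub, eval_X,
      eval_C, eval_pow, sub_zero, ht, sub_self, zero_mul, add_zero]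
    refine mul_ne_zero (mul_ne_zero (mul_ne_zero ?_ ?_) (sub_ne_zero.2 (hs.ne (by decide)))) (sub_ne_zero.2 (hs.ne (by decide)))
    · norm_num
    · simpa using ht0

end Pool.Agent.J4.H67.REG
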