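import Pool.Agent.J4.H67.REG.Places
set_option autoImplicit false

/-!
The action of an involution of the field on the places.
-/

namespace Pool.Agent.J4.H67.REG

open Polynomial MeasureTheory

variable {L : Type} [Field L] [Algebra ℂ L]

/-- an involution of `L` over `ℂ` -/
structure Invol (L : Type) [Field L] [Algebra ℂ L] where
  σ : L →+* L
  cst : ∀ c : ℂ, σ (algebraMap ℂ L c) = algebraMap ℂ L c
  inv : ∀ a, σ (σ a) = a

namespace Place

/-- the image of a place under an involution -/
def map (s : Invol L) (v : Place L) : Place L where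
  O := v.O.comap s.σ
  mem c := by
    rw [ValuationSubring.mem_comap, s.cst]
    exact v.mem c
  ne h := by
    apply v.ne
    rw [eq_top_iff]
    intro a _
    have h1 : s.σ a ∈ v.O.comap s.σ := by
      rw [h]
      trivial
    rw [ValuationSubring.mem_comap, s.inv] at h1
    exact h1

lemma map_map (s : Invol L) (v : Place L) : (v.map s).map s = v := by
  obtain ⟨O, h1, h2⟩ := v
  unfold map
  congr 1
  ext a
  rw [ValuationSubring.mem_comap, ValuationSubring.mem_comap, s.inv]

/-- the permutation of the places -/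
def perm (s : Invol L) : Equiv.Perm (Place L) where
  toFun := map s
  invFun := map s
  left_inv := map_map s
  right_inv := map_map s

variable {s : Invol L} {v : Place L}

lemma mem_map {a : L} : a ∈ (v.map s).O ↔ s.σ a ∈ v.O := Iff.rfl

lemma nu_map {a : L} : a ∈ (v.map s).O.nonunits ↔ s.σ a ∈ v.O.nonunits := by
  rw [ValuationSubring.mem_nonunits_iff_or, ValuationSubring.mem_nonunits_iff_or, mem_map, map_inv₀,
    map_eq_zero]

lemma val_map {a : L} {c : ℂ} : (v.map s).Val a c ↔ v.Val (s.σ a) c := by
  unfold Val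
  rw [nu_map, map_sub, s.cst]

open Classical in
/-- an element with the property `p`, if there is one -/
noncomputable def pick {α : Type} [Zero α] (p : α → Prop) : α := if H : ∃ c, p c then H.choose else 0

lemma value_map {a : L} : (v.map s).value a = v.value (s.σ a) := by
  change pick _ = pick _
  congr 1
  funext c
  exact propext val_map

lemma point_map {X Y : L} : (v.map s).point X Y = v.point (s.σ X) (s.σ Y) := by
  unfold point
  rw [value_map, value_map]
  rfl

lemma isOrd_map' {a : L} {n : ℤ} (h : v.IsOrd (s.σ a) n) : (v.map s).IsOrd a n := by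
  obtain ⟨p, h0, h1, h2, h3, h4⟩ := h
  refine ⟨s.σ p, (_root_.map_ne_zero _).2 h0, ?_, ?_, ?_, ?_⟩
  · rw [nu_map, s.inv]
    exact h1
  · intro b hb
    rw [nu_map] at hb
    rw [mem_map, map_div₀, s.inv]
    exact h2 _ hb
  · rw [mem_map, map_div₀, map_zpow₀, s.inv]
    exact h3
  · rw [mem_map, map_div₀, map_zpow₀, s.inv]
    exact h4

lemma isOrd_map {a : L} {n : ℤ} : (v.map s).IsOrd a n ↔ v.IsOrd (s.σ a) n := by
  constructor
  · intro h
    rw [← map_map s v]
    apply isOrd_map'
    rw [s.inv]
    exact h
  · exact isOrd_map'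

lemma ord_map {a : L} : (v.map s).ord a = v.ord (s.σ a) := by
  change pick _ = pick _
  congr 1
  funext c
  exact propext isOrd_map

end Place

variable {ι : Type} {e : ι → Fin 3 → ℂ}

/-- A curve with a function is a cycle if there is an involution which maps the function to its
inverse and which does not change the image of the places at which the function is not a unit. -/
lemma isCycle_of_invol (Z : CurveFn e) (s : Invol Z.L) (hf : s.σ Z.f = Z.f⁻¹)
    (h : ∀ v : Place Z.L, v.ord Z.f ≠ 0 → ∀ i, v.point (s.σ (Z.X i)) (s.σ (Z.Y i)) = v.point (Z.X i) (Z.Y i)) :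
    Z.IsCycle := by
  classical
  intro A
  set S : Set (Place Z.L) := {v : Place Z.L | ∀ i, v.point (Z.X i) (Z.Y i) = A i} with hS
  have h1 : ∑ᶠ v ∈ S, v.ord Z.f = ∑ᶠ v, (if v ∈ S then v.ord Z.f else 0) := by
    apply finsum_congr
    intro v
    rw [finsum_eq_if]
  have h2 : ∑ᶠ v, (if v ∈ S then v.ord Z.f else 0) =
      ∑ᶠ v, (if Place.perm s v ∈ S then (Place.perm s v).ord Z.f else 0) :=
    (finsum_comp_equiv (Place.perm s) (f := fun v => if v ∈ S then v.ord Z.f else 0)).symm
  have h3 : ∀ v : Place Z.L, (if Place.perm s v ∈ S then (Place.perm s v).ord Z.f else 0) =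
      - (if v ∈ S then v.ord Z.f else 0) := by
    intro v
    have e1 : (Place.perm s v).ord Z.f = - v.ord Z.f := by
      change (v.map s).ord Z.f = _
      rw [Place.ord_map, hf, Place.ord_inv Z.fne]
    rw [e1]
    by_cases h0 : v.ord Z.f = 0
    · rw [h0]
      simp
    · have e2 : Place.perm s v ∈ S ↔ v ∈ S := by
        change (∀ i, (v.map s).point (Z.X i) (Z.Y i) = A i) ↔ ∀ i, v.point (Z.X i) (Z.Y i) = A i
        simp only [Place.point_map, h v h0]
      by_cases hv : v ∈ S
      · rw [if_pos (e2.2 hv), if_pos hv]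
      · rw [if_neg (fun hcon => hv (e2.1 hcon)), if_neg hv, neg_zero]
  rw [h1]
  have h4 : ∑ᶠ v, (if v ∈ S then v.ord Z.f else 0) = - ∑ᶠ v, (if v ∈ S then v.ord Z.f else 0) := by
    conv_lhs => rw [h2]
    rw [finsum_congr h3, finsum_neg_distrib]
  omega

/-- A curve with a constant function is a cycle. -/
lemma isCycle_of_const (Z : CurveFn e) (c : ℂ) (hf : Z.f = algebraMap ℂ Z.L c) : Z.IsCycle := by
  have hc : c ≠ 0 := by
    rintro rfl
    rw [map_zero] at hf
    exact Z.fne hf
  intro A
  have h : ∀ v : Place Z.L, v.ord Z.f = 0 := by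
    intro v
    rw [hf]
    exact Place.ord_unit ((Place.Val.const c).isU hc)
  simp only [h, finsum_zero]

end Pool.Agent.J4.H67.REG
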