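import Pool.Agent.J4.H67.REG.Dir
set_option autoImplicit false
set_option linter.unusedSectionVars false

/-!
The regulators span: density.
-/

namespace Pool.Agent.J4.H67.REG

open Polynomial MeasureTheory

open scoped ComplexConjugate

variable {ι : Type} {e : ι → Fin 3 → ℂ}

lemma cubic_perm (g : Fin 3 → ℂ) (π : Equiv.Perm (Fin 3)) : cubic g = cubic (fun k => g (π k)) := by
  unfold cubic
  exact (Equiv.prod_comp π (fun k => X - C (g k))).symm

lemma side_add (g : Fin 3 → ℂ) (m k : Fin 3) : side (fun k => g (Equiv.addRight m k)) k = side g (k + m) := by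
  unfold side
  simp only [Equiv.coe_addRight]
  have h1 : ∀ k m : Fin 3, k + 1 + m = k + m + 1 := by decide
  have h2 : ∀ k m : Fin 3, k + 2 + m = k + m + 2 := by decide
  rw [h1, h2]

lemma side_sub (g : Fin 3 → ℂ) (m k : Fin 3) : side (fun k => g (Equiv.subLeft m k)) k = - side g (m - k) := by
  unfold side
  simp only [Equiv.subLeft_apply]
  have h1 : ∀ m k : Fin 3, m - (k + 1) = m - k + 2 := by decide
  have h2 : ∀ m k : Fin 3, m - (k + 2) = m - k + 1 := by decide
  rw [h1, h2]
  ring

lemma im_div_side (T q p : ℂ) : (T * q / p).im = (T * q * conj p).im / ‖p‖ ^ 2 := by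
  by_cases hp : p = 0
  · simp [hp]
  · have h1 : T * q / p = T * q * conj p * (((‖p‖ ^ 2)⁻¹ : ℝ) : ℂ) := by
      have h2 : (((‖p‖ ^ 2)⁻¹ : ℝ) : ℂ) = (p * conj p)⁻¹ := by
        rw [Complex.mul_conj']
        push_cast
        rfl
      have hcp : conj p ≠ 0 := (_root_.map_ne_zero _).2 hp
      rw [h2]
      field_simp
    rw [h1, Complex.im_mul_ofReal, div_eq_mul_inv]

/-- **Every direction.** -/
theorem exists_dir [DecidableEq ι] (he : ∀ i, Function.Injective (e i)) (i j : ι) (hij : j ≠ i) (u : ℂ) (hu : u ≠ 0) :
    ∃ Z : CurveFn e, Z.IsCycle ∧ (∀ k, k ≠ i → k ≠ j → Z.h k = 0) ∧ (u * Z.reg i j).re ≠ 0 := by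
  have hp : ∀ k, side (e i) k ≠ 0 := side_ne (he i)
  have hq : ∀ k, side (e j) k ≠ 0 := side_ne (he j)
  have hpn : ∀ k, 0 < ‖side (e i) k‖ ^ 2 := fun k => by
    have := norm_pos_iff.2 (hp k)
    positivity
  have hT : u ^ 2 ≠ 0 := pow_ne_zero 2 hu
  set N : Fin 3 → Fin 3 → ℝ := fun k l => (u ^ 2 * side (e j) l * conj (side (e i) k)).im with hN
  have hneg : ∀ k l, (u ^ 2 * (-side (e j) l) * conj (side (e i) k)).im = - N k l := by
    intro k l
    simp only [hN]
    rw [mul_neg, neg_mul, Complex.neg_im]
  by_cases hN0 : ∃ k l, N k l ≠ 0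
  · have hrow : ∀ k, N k 0 + N k 1 + N k 2 = 0 := by
      intro k
      simp only [hN]
      rw [← Complex.add_im, ← Complex.add_im]
      have h1 : u ^ 2 * side (e j) 0 * conj (side (e i) k) + u ^ 2 * side (e j) 1 * conj (side (e i) k) +
          u ^ 2 * side (e j) 2 * conj (side (e i) k) = 0 := by
        linear_combination (u ^ 2 * conj (side (e i) k)) * side_sum (e j)
      rw [h1, Complex.zero_im]
    have hcol : ∀ l, N 0 l + N 1 l + N 2 l = 0 := by
      intro l
      simp only [hN]
      rw [← Complex.add_im, ← Complex.add_im]
      have h2 : conj (side (e i) 0) + conj (side (e i) 1) + conj (side (e i) 2) = 0 := by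
        rw [← map_add, ← map_add, side_sum, map_zero]
      have h1 : u ^ 2 * side (e j) l * conj (side (e i) 0) + u ^ 2 * side (e j) l * conj (side (e i) 1) +
          u ^ 2 * side (e j) l * conj (side (e i) 2) = 0 := by
        linear_combination (u ^ 2 * side (e j) l) * h2
      rw [h1, Complex.zero_im]
    obtain ⟨m, ⟨hs, k, hk⟩ | ⟨hs, k, hk⟩⟩ := exists_pattern N hrow hcol hN0
    · refine exists_core i j hij (he i) u hu (fun k => e j (Equiv.addRight m k))
        ((he j).comp (Equiv.injective _)) (cubic_perm _ _) ?_ ⟨k, ?_⟩
      · rcases hs with hs | hs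
        · left
          intro k
          rw [side_add, im_div_side]
          exact div_nonneg (hs k) (hpn k).le
        · right
          intro k
          rw [side_add, im_div_side]
          exact div_nonpos_of_nonpos_of_nonneg (hs k) (hpn k).le
      · right
        rw [side_add, im_div_side]
        exact div_ne_zero hk (hpn k).ne'
    · refine exists_core i j hij (he i) u hu (fun k => e j (Equiv.subLeft m k))
        ((he j).comp (Equiv.injective _)) (cubic_perm _ _) ?_ ⟨k, ?_⟩
      · rcases hs with hs | hs
        · right
          intro k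
          rw [side_sub, im_div_side, hneg]
          exact div_nonpos_of_nonpos_of_nonneg (by linarith [hs k]) (hpn k).le
        · left
          intro k
          rw [side_sub, im_div_side, hneg]
          exact div_nonneg (by linarith [hs k]) (hpn k).le
      · right
        rw [side_sub, im_div_side, hneg]
        exact div_ne_zero (neg_ne_zero.2 hk) (hpn k).ne'
  · push Not at hN0
    have hreal : ∀ k l, (u ^ 2 * side (e j) l / side (e i) k).im = 0 := by
      intro k l
      rw [im_div_side]
      have := hN0 k l
      simp only [hN] at this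
      rw [this, zero_div]
    have hreal' : ∀ k l, (u ^ 2 * (-side (e j) l) / side (e i) k).im = 0 := by
      intro k l
      rw [mul_neg, neg_div, Complex.neg_im, hreal, neg_zero]
    have hre : (u ^ 2 * side (e j) 0 / side (e i) 0).re ≠ 0 := by
      intro h
      have h1 : u ^ 2 * side (e j) 0 / side (e i) 0 = 0 := Complex.ext h (hreal 0 0)
      exact div_ne_zero (mul_ne_zero hT (hq 0)) (hp 0) h1
    rcases lt_or_gt_of_ne hre with h | h
    · refine exists_core i j hij (he i) u hu (fun k => e j (Equiv.subLeft 0 k))
        ((he j).comp (Equiv.injective _)) (cubic_perm _ _) (Or.inl fun k => ?_) ⟨0, ?_⟩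
      · rw [side_sub, hreal']
      · left
        rw [side_sub]
        change 0 < (u ^ 2 * (-side (e j) 0) / side (e i) 0).re
        rw [mul_neg, neg_div, Complex.neg_re]
        linarith
    · refine exists_core i j hij (he i) u hu (fun k => e j (Equiv.addRight 0 k))
        ((he j).comp (Equiv.injective _)) (cubic_perm _ _) (Or.inl fun k => ?_) ⟨0, ?_⟩
      · rw [side_add, hreal]
      · left
        rw [side_add]
        exact h

/-- the closure of the rational span is a real subspace -/
lemma smul_mem_closure {E : Type} [AddCommGroup E] [Module ℝ E] [Module ℚ E] [TopologicalSpace E]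
    [IsTopologicalAddGroup E] [ContinuousSMul ℝ E] (S : Submodule ℚ E) {x : E} (hx : x ∈ closure (S : Set E)) (r : ℝ) :
    r • x ∈ closure (S : Set E) := by
  have h1 : ∀ q : ℚ, (q : ℝ) • x ∈ closure (S : Set E) := by
    intro q
    have hc : Continuous fun y : E => (q : ℝ) • y := continuous_const_smul _
    have h2 : Set.MapsTo (fun y : E => (q : ℝ) • y) (S : Set E) (S : Set E) := by
      intro y hy
      have h3 : (q : ℝ) • y = q • y := by
        exact Rat.cast_smul_eq_qsmul ℝ q y
      change (q : ℝ) • y ∈ (S : Set E)
      rw [h3]
      exact S.smul_mem q hy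
    exact map_mem_closure hc hx h2
  have hcl : IsClosed {r : ℝ | r • x ∈ closure (S : Set E)} :=
    isClosed_closure.preimage (continuous_id.smul continuous_const)
  have h2 : (Set.range ((↑) : ℚ → ℝ)) ⊆ {r : ℝ | r • x ∈ closure (S : Set E)} := by
    rintro _ ⟨q, rfl⟩
    exact h1 q
  have h3 := closure_minimal h2 hcl
  rw [Rat.denseRange_cast.closure_range] at h3
  exact h3 trivial

/-- a real subspace of `ℂ` which is not in the kernel of a nonzero functional -/
lemma real_subspace_eq_top (W : Submodule ℝ ℂ) (h : ∀ u : ℂ, u ≠ 0 → ∃ m ∈ W, (u * m).re ≠ 0) : W = ⊤ := by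
  by_contra hW
  obtain ⟨f, hf0, hf⟩ := Submodule.exists_le_ker_of_lt_top W (lt_top_iff_ne_top.2 hW)
  set u : ℂ := ⟨f 1, - f Complex.I⟩ with hu
  have hfu : ∀ m : ℂ, f m = (u * m).re := by
    intro m
    have h1 : m = m.re • (1 : ℂ) + m.im • Complex.I := by
      apply Complex.ext <;> simp
    conv_lhs => rw [h1]
    rw [map_add, map_smul, map_smul, Complex.mul_re]
    simp only [hu, smul_eq_mul]
    ring
  have hu0 : u ≠ 0 := by
    intro h0
    apply hf0
    ext m <;> simp [hfu, h0]
  obtain ⟨m, hm, hm'⟩ := h u hu0
  apply hm'
  rw [← hfu]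
  exact LinearMap.mem_ker.1 (hf hm)

variable (e) in
/-- the set of the regulators of the cycles -/
def regSet : Set (Matrix ι ι ℂ) := {M | ∃ Z : CurveFn e, Z.IsCycle ∧ Z.reg = M}

theorem density [Fintype ι] (he : ∀ i, Function.Injective (e i)) :
    closure (Submodule.span ℚ (regSet e) : Set (Matrix ι ι ℂ)) = {A | A.IsHermitian} := by
  classical
  set S := Submodule.span ℚ (regSet e) with hS
  -- the closure is a real subspace
  let V : Submodule ℝ (Matrix ι ι ℂ) :=
    { carrier := closure (S : Set (Matrix ι ι ℂ))
      add_mem' := fun {a b} ha hb => S.toAddSubgroup.topologicalClosure.add_mem ha hb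
      zero_mem' := subset_closure S.zero_mem
      smul_mem' := fun r x hx => smul_mem_closure S hx r }
  have hVreg : ∀ Z : CurveFn e, Z.IsCycle → Z.reg ∈ V := fun Z hZ =>
    subset_closure (Submodule.subset_span ⟨Z, hZ, rfl⟩)
  have hdiag : ∀ (i : ι) (r : ℝ), Matrix.single i i (r : ℂ) ∈ V := by
    intro i r
    obtain ⟨Z, h1, h2, h3⟩ := exists_diagCycle i (he i)
    set t : ℝ := 2 * Real.log 2 * ∫ z, ‖∏ k, (z - e i k)‖⁻¹ with ht
    have ht0 : t ≠ 0 := by
      have hI := integral_cubic_pos (e i) (he i)
      have hl := Real.log_pos one_lt_two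
      positivity
    have h4 : Z.reg = Matrix.single i i (t : ℂ) := by
      ext k l
      by_cases hk : k = i
      · by_cases hl : l = i
        · subst hk
          subst hl
          rw [h3, Matrix.single_apply_same]
        · rw [reg_eq_zero_right Z k l (h2 l hl), Matrix.single_apply_of_ne]
          exact fun h => hl h.2.symm
      · rw [reg_eq_zero_left Z k l (h2 k hk), Matrix.single_apply_of_ne]
        exact fun h => hk h.1.symm
    have h5 := V.smul_mem (r / t) (hVreg Z h1)
    rw [h4, Matrix.smul_single] at h5
    convert h5 using 2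
    rw [Complex.real_smul, ← Complex.ofReal_mul, div_mul_cancel₀ _ ht0]
  have hoff : ∀ (i j : ι), j ≠ i → ∀ m : ℂ, Matrix.single i j m + Matrix.single j i (conj m) ∈ V := by
    intro i j hij
    let W : Submodule ℝ ℂ :=
      { carrier := {m | Matrix.single i j m + Matrix.single j i (conj m) ∈ V}
        add_mem' := by
          intro a b ha hb
          have h := V.add_mem ha hb
          change Matrix.single i j (a + b) + Matrix.single j i (conj (a + b)) ∈ V
          convert h using 1
          rw [map_add, Matrix.single_add, Matrix.single_add]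
          abel
        zero_mem' := by
          change Matrix.single i j (0 : ℂ) + Matrix.single j i (conj (0 : ℂ)) ∈ V
          rw [map_zero, Matrix.single_zero, Matrix.single_zero, add_zero]
          exact V.zero_mem
        smul_mem' := by
          intro r a ha
          have h := V.smul_mem r ha
          change Matrix.single i j (r • a) + Matrix.single j i (conj (r • a)) ∈ V
          convert h using 1
          rw [smul_add, Matrix.smul_single, Matrix.smul_single]
          congr 2
          rw [Complex.real_smul, Complex.real_smul, map_mul, Complex.conj_ofReal] }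
    have hW : W = ⊤ := by
      apply real_subspace_eq_top
      intro u hu
      obtain ⟨Z, h1, h2, h3⟩ := exists_dir he i j hij u hu
      refine ⟨Z.reg i j, ?_, h3⟩
      change Matrix.single i j (Z.reg i j) + Matrix.single j i (conj (Z.reg i j)) ∈ V
      have hii : ∀ k, ((Z.reg k k).re : ℂ) = Z.reg k k := by
        intro k
        have := reg_conj Z k k
        exact Complex.conj_eq_iff_re.1 this
      have h4 : Matrix.single i j (Z.reg i j) + Matrix.single j i (conj (Z.reg i j)) =
          Z.reg - Matrix.single i i (((Z.reg i i).re : ℝ) : ℂ) - Matrix.single j j (((Z.reg j j).re : ℝ) : ℂ) := by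
        rw [hii, hii, reg_conj]
        ext k l
        simp only [Matrix.add_apply, Matrix.sub_apply, Matrix.single_apply]
        by_cases hk : k = i
        · subst hk
          by_cases hl : l = k
          · subst hl
            simp [hij]
          · by_cases hl' : l = j
            · subst hl'
              simp [hij, Ne.symm hij]
            · have h5 := reg_eq_zero_right Z k l (h2 l hl hl')
              simp [h5, Ne.symm hl, Ne.symm hl', hij]
        · by_cases hk' : k = j
          · subst hk'
            by_cases hl : l = i
            · subst hl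
              simp [hij, Ne.symm hij]
            · by_cases hl' : l = k
              · subst hl'
                simp [Ne.symm hij]
              · have h5 := reg_eq_zero_right Z k l (h2 l hl hl')
                simp [h5, Ne.symm hl, Ne.symm hl', Ne.symm hij]
          · have h5 := reg_eq_zero_left Z k l (h2 k hk hk')
            simp [h5, Ne.symm hk, Ne.symm hk']
      rw [h4]
      exact V.sub_mem (V.sub_mem (hVreg Z h1) (hdiag i _)) (hdiag j _)
    intro m
    have : m ∈ W := by
      rw [hW]
      trivial
    exact this
  apply Set.Subset.antisymm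
  · apply closure_minimal
    · intro A hA
      induction hA using Submodule.span_induction with
      | mem x hx =>
        obtain ⟨Z, -, rfl⟩ := hx
        exact reg_isHermitian Z
      | zero => exact Matrix.isHermitian_zero
      | add x y _ _ hx hy => exact hx.add hy
      | smul q x _ hx =>
        change (q • x).conjTranspose = q • x
        rw [Matrix.conjTranspose_smul, hx.eq]
        simp
    · have hc1 : Continuous fun A : Matrix ι ι ℂ => A.conjTranspose := continuous_id.matrix_conjTranspose
      exact isClosed_eq hc1 continuous_id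
  · intro A hA
    have hA : A.IsHermitian := hA
    change A ∈ V
    -- twice the matrix is the sum of the hermitian parts
    have h1 : ∀ i j, Matrix.single i j (A i j) + Matrix.single j i (A j i) ∈ V := by
      intro i j
      have hconj : A j i = conj (A i j) := (hA.apply j i).symm
      by_cases hij : j = i
      · subst hij
        have h2 : ((A j j).re : ℂ) = A j j := Complex.conj_eq_iff_re.1 hconj.symm
        rw [← h2]
        exact V.add_mem (hdiag j _) (hdiag j _)
      · rw [hconj]
        exact hoff i j hij _
    have h2 : (2 : ℝ) • A = ∑ i, ∑ j, (Matrix.single i j (A i j) + Matrix.single j i (A j i)) := by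
      have h3 : A = ∑ i, ∑ j, Matrix.single i j (A i j) := Matrix.matrix_eq_sum_single A
      have h4 : ∑ i, ∑ j, Matrix.single j i (A j i) = A := by
        rw [Finset.sum_comm]
        exact h3.symm
      simp only [Finset.sum_add_distrib]
      rw [h4, ← h3, two_smul]
    have h3 : A = (2 : ℝ)⁻¹ • ((2 : ℝ) • A) := by
      rw [smul_smul, inv_mul_cancel₀ two_ne_zero, one_smul]
    rw [h3]
    apply V.smul_mem
    rw [h2]
    exact V.sum_mem fun i _ => V.sum_mem fun j _ => h1 i j

end Pool.Agent.J4.H67.REG
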