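import Pool.Agent.J4.H67.REG.Defs
set_option autoImplicit false

/-!
General facts on places: values, orders, and the action of an involution.
-/

namespace Pool.Agent.J4.H67.REG

open Polynomial MeasureTheory

variable {L : Type} [Field L] [Algebra ℂ L] {v : Place L}

namespace Place

lemma nu_mem {a : L} (h : a ∈ v.O.nonunits) : a ∈ v.O := v.O.nonunits_le h

lemma nu_iff {a : L} : a ∈ v.O.nonunits ↔ v.O.valuation a < 1 := v.O.mem_nonunits_iff

lemma nu_mul {a b : L} (ha : a ∈ v.O) (hb : b ∈ v.O.nonunits) : a * b ∈ v.O.nonunits := by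
  rw [nu_iff, map_mul]
  have h1 := (v.O.valuation_le_one_iff a).2 ha
  have h2 := nu_iff.1 hb
  calc v.O.valuation a * v.O.valuation b ≤ 1 * v.O.valuation b := mul_le_mul_left h1 _
    _ = v.O.valuation b := one_mul _
    _ < 1 := h2

lemma nu_prime {a b : L} (hab : a * b ∈ v.O.nonunits) :
    a ∈ v.O.nonunits ∨ b ∈ v.O.nonunits := by
  rw [nu_iff, nu_iff]
  rw [nu_iff, map_mul] at hab
  by_contra hcon
  push Not at hcon
  exact absurd (one_le_mul hcon.1 hcon.2) (not_le.2 hab)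

lemma cst_nu {c : ℂ} (h : algebraMap ℂ L c ∈ v.O.nonunits) : c = 0 := by
  rw [ValuationSubring.mem_nonunits_iff_or] at h
  rcases h with h | h
  · exact (map_eq_zero _).1 h
  · exfalso
    apply h
    rw [← map_inv₀]
    exact v.mem _

lemma one_nu : (1 : L) ∉ v.O.nonunits := by
  rw [nu_iff, map_one]
  exact lt_irrefl _

lemma Val.mem {a : L} {c : ℂ} (h : v.Val a c) : a ∈ v.O := by
  have h1 := v.O.add_mem _ _ (nu_mem h) (v.mem c)
  rwa [sub_add_cancel] at h1

lemma Val.unique {a : L} {c d : ℂ} (h : v.Val a c) (h' : v.Val a d) : c = d := by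
  have h1 := v.O.nonunits.sub_mem h' h
  have h2 : a - algebraMap ℂ L d - (a - algebraMap ℂ L c) = algebraMap ℂ L (c - d) := by
    rw [map_sub]
    ring
  rw [h2] at h1
  exact sub_eq_zero.1 (cst_nu h1)

lemma Val.value {a : L} {c : ℂ} (h : v.Val a c) : v.value a = c := by
  classical
  have H : ∃ c, v.Val a c := ⟨c, h⟩
  unfold Place.value
  rw [dif_pos H]
  exact H.choose_spec.unique h

lemma Val.const (c : ℂ) : v.Val (algebraMap ℂ L c) c := by
  unfold Place.Val
  rw [sub_self]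
  exact v.O.nonunits.zero_mem

lemma Val.add {a b : L} {c d : ℂ} (h : v.Val a c) (h' : v.Val b d) : v.Val (a + b) (c + d) := by
  have h1 := v.O.nonunits.add_mem h h'
  unfold Place.Val
  rw [map_add]
  convert h1 using 1
  ring

lemma Val.sub {a b : L} {c d : ℂ} (h : v.Val a c) (h' : v.Val b d) : v.Val (a - b) (c - d) := by
  have h1 := v.O.nonunits.sub_mem h h'
  unfold Place.Val
  rw [map_sub]
  convert h1 using 1
  ring

lemma Val.neg {a : L} {c : ℂ} (h : v.Val a c) : v.Val (-a) (-c) := by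
  have h1 := v.O.nonunits.neg_mem h
  unfold Place.Val
  rw [map_neg]
  convert h1 using 1
  ring

lemma Val.mul {a b : L} {c d : ℂ} (h : v.Val a c) (h' : v.Val b d) : v.Val (a * b) (c * d) := by
  have h1 := v.O.nonunits.add_mem (nu_mul h.mem h') (nu_mul (v.mem d) h)
  unfold Place.Val
  rw [map_mul]
  convert h1 using 1
  ring

lemma Val.zero_iff {a : L} : v.Val a 0 ↔ a ∈ v.O.nonunits := by
  unfold Place.Val
  rw [map_zero, sub_zero]

/-- units of the valuation ring -/
def IsU (v : Place L) (a : L) : Prop := v.O.valuation a = 1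

lemma IsU.ne {a : L} (h : v.IsU a) : a ≠ 0 := by
  rintro rfl
  unfold IsU at h
  rw [map_zero] at h
  exact zero_ne_one h

lemma IsU.mem {a : L} (h : v.IsU a) : a ∈ v.O := (v.O.valuation_le_one_iff a).1 h.le

lemma IsU.mul {a b : L} (h : v.IsU a) (h' : v.IsU b) : v.IsU (a * b) := by
  unfold IsU at *
  rw [map_mul, h, h', one_mul]

lemma IsU.inv {a : L} (h : v.IsU a) : v.IsU a⁻¹ := by
  unfold IsU at *
  rw [map_inv₀, h, inv_one]

lemma IsU.div {a b : L} (h : v.IsU a) (h' : v.IsU b) : v.IsU (a / b) := by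
  rw [div_eq_mul_inv]
  exact h.mul h'.inv

lemma Val.isU {a : L} {c : ℂ} (h : v.Val a c) (hc : c ≠ 0) : v.IsU a := by
  have h1 := (v.O.valuation_le_one_iff a).2 h.mem
  rcases h1.lt_or_eq with h2 | h2
  · exfalso
    have h3 : v.Val a 0 := Val.zero_iff.2 (nu_iff.2 h2)
    exact hc (h.unique h3)
  · exact h2

lemma Val.inv {a : L} {c : ℂ} (h : v.Val a c) (hc : c ≠ 0) : v.Val a⁻¹ c⁻¹ := by
  have hU := h.isU hc
  have hc' : algebraMap ℂ L c ≠ 0 := (_root_.map_ne_zero _).2 hc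
  have h1 := nu_mul (v := v) (a := -(a⁻¹ * algebraMap ℂ L c⁻¹)) (b := a - algebraMap ℂ L c)
    (v.O.neg_mem _ (v.O.mul_mem _ _ hU.inv.mem (v.mem _))) h
  unfold Place.Val
  convert h1 using 1
  rw [map_inv₀]
  have := hU.ne
  field_simp
  ring

lemma Val.div {a b : L} {c d : ℂ} (h : v.Val a c) (h' : v.Val b d) (hd : d ≠ 0) : v.Val (a / b) (c / d) := by
  rw [div_eq_mul_inv, div_eq_mul_inv]
  exact h.mul (h'.inv hd)

lemma Val.pow {a : L} {c : ℂ} (h : v.Val a c) (n : ℕ) : v.Val (a ^ n) (c ^ n) := by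
  induction n with
  | zero =>
    rw [pow_zero, pow_zero]
    have := Val.const (v := v) 1
    rwa [map_one] at this
  | succ n ih =>
    rw [pow_succ, pow_succ]
    exact ih.mul h

lemma Val.aeval {a : L} {c : ℂ} (h : v.Val a c) (p : ℂ[X]) : v.Val (aeval a p) (p.eval c) := by
  induction p using Polynomial.induction_on with
  | C z =>
    rw [aeval_C, eval_C]
    exact Val.const z
  | add p q hp hq =>
    rw [map_add, eval_add]
    exact hp.add hq
  | monomial n z hn =>
    rw [map_mul, aeval_C, map_pow, aeval_X, eval_mul, eval_C, eval_pow, eval_X]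
    exact (Val.const z).mul (h.pow _)

/-- the order of a unit is `0` -/
lemma isOrd_unit {a : L} (h : v.IsU a) {n : ℤ} (hn : v.IsOrd a n) : n = 0 := by
  obtain ⟨p, hp0, hp, hp1, h1, h2⟩ := hn
  unfold IsU at h
  have hval : v.O.valuation p < 1 := nu_iff.1 hp
  have hval0 : v.O.valuation p ≠ 0 := (Valuation.ne_zero_iff _).2 hp0
  rw [← v.O.valuation_le_one_iff, map_div₀, map_zpow₀, h] at h1 h2
  have h3 : v.O.valuation p ^ n = 1 := by
    apply le_antisymm
    · rwa [div_one] at h2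
    · rw [one_div] at h1
      have h4 : 0 < v.O.valuation p ^ n := zero_lt_iff.2 (zpow_ne_zero _ hval0)
      exact (inv_le_one₀ h4).1 h1
  by_contra hn
  rcases lt_or_gt_of_ne hn with hlt | hlt
  · have h5 := one_lt_zpow_of_neg₀ (zero_lt_iff.2 hval0) hval hlt
    rw [h3] at h5
    exact lt_irrefl _ h5
  · have h5 := zpow_lt_one₀ (zero_lt_iff.2 hval0) hval hlt
    rw [h3] at h5
    exact lt_irrefl _ h5

lemma ord_unit {a : L} (h : v.IsU a) : v.ord a = 0 := by
  classical
  unfold ord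
  split_ifs with H
  · exact isOrd_unit h H.choose_spec
  · rfl

omit [Algebra ℂ L] in
lemma inv_div_comm' (a b : L) : b⁻¹ / a = a⁻¹ / b := by
  rw [div_eq_mul_inv, div_eq_mul_inv, mul_comm]

lemma isOrd_inv {a : L} {n : ℤ} : v.IsOrd a⁻¹ n ↔ v.IsOrd a (-n) := by
  unfold IsOrd
  constructor
  · rintro ⟨p, h0, h1, h2, h3, h4⟩
    refine ⟨p, h0, h1, h2, ?_, ?_⟩
    · rw [zpow_neg, div_inv_eq_mul, mul_comm, ← div_inv_eq_mul]
      exact h4
    · rw [zpow_neg, inv_div_comm']
      exact h3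
  · rintro ⟨p, h0, h1, h2, h3, h4⟩
    refine ⟨p, h0, h1, h2, ?_, ?_⟩
    · rw [zpow_neg] at h4
      rw [inv_div_comm']
      exact h4
    · rw [zpow_neg, div_inv_eq_mul] at h3
      rw [div_inv_eq_mul, mul_comm]
      exact h3

lemma isOrd_unique {a : L} (ha : a ≠ 0) {n m : ℤ} (hn : v.IsOrd a n) (hm : v.IsOrd a m) : n = m := by
  obtain ⟨p, hp0, hp, hp1, h1, h2⟩ := hn
  obtain ⟨q, hq0, hq, hq1, h3, h4⟩ := hm
  have hpos : ∀ {b : L}, b ≠ 0 → 0 < v.O.valuation b := fun hb => zero_lt_iff.2 ((Valuation.ne_zero_iff _).2 hb)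
  have hpq : v.O.valuation p = v.O.valuation q := by
    have e1 := hp1 q hq
    have e2 := hq1 p hp
    rw [← v.O.valuation_le_one_iff, map_div₀] at e1 e2
    exact le_antisymm ((div_le_one₀ (hpos hq0)).1 e2) ((div_le_one₀ (hpos hp0)).1 e1)
  have hval : v.O.valuation p < 1 := nu_iff.1 hp
  rw [← v.O.valuation_le_one_iff, map_div₀, map_zpow₀] at h1 h2 h3 h4
  have e1 : v.O.valuation a = v.O.valuation p ^ n :=
    le_antisymm ((div_le_one₀ (zpow_pos (hpos hp0) _)).1 h1) ((div_le_one₀ (hpos ha)).1 h2)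
  have e2 : v.O.valuation a = v.O.valuation q ^ m :=
    le_antisymm ((div_le_one₀ (zpow_pos (hpos hq0) _)).1 h3) ((div_le_one₀ (hpos ha)).1 h4)
  rw [← hpq] at e2
  exact (zpow_right_injective₀ (hpos hp0) hval.ne) (e1.symm.trans e2)

lemma ord_inv {a : L} (ha : a ≠ 0) : v.ord a⁻¹ = - v.ord a := by
  classical
  unfold ord
  by_cases H : ∃ n, v.IsOrd a n
  · have H' : ∃ n, v.IsOrd a⁻¹ n := by
      obtain ⟨n, hn⟩ := H
      exact ⟨-n, isOrd_inv.2 (by rwa [neg_neg])⟩
    rw [dif_pos H, dif_pos H']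
    have h1 := isOrd_inv.1 H'.choose_spec
    have h2 := isOrd_unique ha h1 H.choose_spec
    omega
  · have H' : ¬ ∃ n, v.IsOrd a⁻¹ n := by
      rintro ⟨n, hn⟩
      exact H ⟨-n, isOrd_inv.1 hn⟩
    rw [dif_neg H, dif_neg H', neg_zero]

end Place

end Pool.Agent.J4.H67.REG
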