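import Pool.Agent.J4.H67.REG.Int
set_option autoImplicit false

/-!
The sign of the integral of `log |(z - c) / (z + c)| Re z / |P(z)|`.
-/

namespace Pool.Agent.J4.H67.REG

open MeasureTheory Set

open scoped ComplexConjugate

/-- the product `∏ (z² - s_k)` -/
noncomputable def QQ (s : Fin 3 → ℂ) (z : ℂ) : ℂ := ∏ k, (z ^ 2 - s k)

/-- the integrand -/
noncomputable def FF (s : Fin 3 → ℂ) (c z : ℂ) : ℂ := (Real.log ‖(z - c) / (z + c)‖ : ℂ) * z / (‖QQ s z‖ : ℂ)

lemma measurable_FF (s : Fin 3 → ℂ) (c : ℂ) : Measurable (FF s c) := by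
  unfold FF QQ
  fun_prop

lemma abs_log_le {u v : ℝ} (hu : 0 < u) (hv : 0 < v) :
    |Real.log (u / v)| ≤ 2 * (u + v) * (u ^ (-(1 / 2) : ℝ) * v ^ (-(1 / 2) : ℝ)) := by
  have key : ∀ {a b : ℝ}, 0 < a → 0 < b → Real.log (a / b) ≤ 2 * (a + b) * (a ^ (-(1 / 2) : ℝ) * b ^ (-(1 / 2) : ℝ)) := by
    intro a b ha hb
    have h1 : Real.log (a / b) = 2 * Real.log ((a / b) ^ (1 / 2 : ℝ)) := by
      rw [Real.log_rpow (by positivity)]
      ring
    have h2 := Real.log_le_sub_one_of_pos (by positivity : 0 < (a / b) ^ (1 / 2 : ℝ))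
    have h3 : (a / b) ^ (1 / 2 : ℝ) = a * (a ^ (-(1 / 2) : ℝ) * b ^ (-(1 / 2) : ℝ)) := by
      rw [Real.div_rpow ha.le hb.le, ← mul_assoc]
      have h4 : a * a ^ (-(1 / 2) : ℝ) = a ^ (1 / 2 : ℝ) := by
        have h5 := Real.rpow_add ha 1 (-(1 / 2))
        rw [Real.rpow_one] at h5
        rw [← h5]
        norm_num
      rw [h4, Real.rpow_neg hb.le, div_eq_mul_inv]
    have h4 : 0 < b * (a ^ (-(1 / 2) : ℝ) * b ^ (-(1 / 2) : ℝ)) := by positivity
    rw [h1]
    nlinarith
  rw [abs_le]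
  constructor
  · have h1 := key hv hu
    have h2 : Real.log (v / u) = - Real.log (u / v) := by
      rw [← Real.log_inv, inv_div]
    rw [h2] at h1
    linarith
  · exact key hu hv

lemma integrable_FF (s : Fin 3 → ℂ) (hs : Function.Injective s) (hs0 : ∀ k, s k ≠ 0) (k₀ : Fin 3) (c : ℂ)
    (hc : c ^ 2 = s k₀) : Integrable (FF s c) := by
  have hex : ∀ k, ∃ t : ℂ, t ^ 2 = s k := fun k => IsAlgClosed.exists_pow_nat_eq (s k) (n := 2) (by norm_num)
  choose t' ht' using hex
  set t : Fin 3 → ℂ := fun k => if k = k₀ then c else t' k with ht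
  have ht2 : ∀ k, t k ^ 2 = s k := by
    intro k
    simp only [ht]
    split_ifs with h
    · rw [h, hc]
    · exact ht' k
  have htk : t k₀ = c := by simp [ht]
  have ht0 : ∀ k, t k ≠ 0 := by
    intro k h
    apply hs0 k
    rw [← ht2, h]
    norm_num
  set r : Fin 3 ⊕ Fin 3 → ℂ := Sum.elim t (fun k => - t k) with hr
  have hrinj : Function.Injective r := by
    rintro (i | i) (j | j) hij
    · have h1 : t i = t j := hij
      have h2 := hs ((ht2 i).symm.trans ((congrArg (fun x => x ^ 2) h1).trans (ht2 j)))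
      rw [h2]
    · exfalso
      have h1 : t i = - t j := hij
      have h2 : t i ^ 2 = t j ^ 2 := by rw [h1, neg_sq]
      rw [ht2, ht2] at h2
      rw [hs h2] at h1
      apply ht0 j
      linear_combination h1 / 2
    · exfalso
      have h1 : - t i = t j := hij
      have h2 : t i ^ 2 = t j ^ 2 := by rw [← h1, neg_sq]
      rw [ht2, ht2] at h2
      rw [hs h2] at h1
      apply ht0 j
      linear_combination - h1 / 2
    · have h1 : - t i = - t j := hij
      have h2 := hs ((ht2 i).symm.trans ((congrArg (fun x => x ^ 2) (neg_injective h1)).trans (ht2 j)))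
      rw [h2]
  set b : Fin 3 ⊕ Fin 3 → ℝ := fun j => 1 + (if j = Sum.inl k₀ ∨ j = Sum.inr k₀ then (1 / 2 : ℝ) else 0) with hb
  have hprod : ∀ z : ℂ, (∀ j, z ≠ r j) → ∏ j, ‖z - r j‖ ^ (- b j) =
      ‖QQ s z‖⁻¹ * (‖z - c‖ ^ (-(1 / 2) : ℝ) * ‖z + c‖ ^ (-(1 / 2) : ℝ)) := by
    intro z hz
    have hpos : ∀ j, 0 < ‖z - r j‖ := fun j => norm_pos_iff.2 (sub_ne_zero.2 (hz j))
    have e1 : ∀ j, ‖z - r j‖ ^ (- b j) = ‖z - r j‖⁻¹ * (if j = Sum.inl k₀ ∨ j = Sum.inr k₀ then ‖z - r j‖ ^ (-(1 / 2) : ℝ) else 1) := by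
      intro j
      simp only [hb]
      split_ifs
      · rw [neg_add, Real.rpow_add (hpos j), Real.rpow_neg_one]
      · rw [add_zero, Real.rpow_neg_one, mul_one]
    rw [Finset.prod_congr rfl (fun j _ => e1 j), Finset.prod_mul_distrib]
    congr 1
    · rw [Finset.prod_inv_distrib, Fintype.prod_sum_type]
      congr 1
      unfold QQ
      rw [norm_prod, ← Finset.prod_mul_distrib]
      apply Finset.prod_congr rfl
      intro k _
      simp only [hr, Sum.elim_inl, Sum.elim_inr]
      rw [← norm_mul, ← ht2]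
      congr 1
      ring
    · rw [Fintype.prod_sum_type]
      congr 1
      · rw [Finset.prod_eq_single k₀]
        · simp [hr, htk]
        · intro k _ hk
          simp [hk]
        · simp
      · rw [Finset.prod_eq_single k₀]
        · simp [hr, htk]
        · intro k _ hk
          simp [hk]
        · simp
  refine integrable_prod r hrinj b ?_ ?_ 2 ?_ (4 * (1 + ‖c‖)) (FF s c) (measurable_FF s c).aestronglyMeasurable ?_
  · intro j
    simp only [hb]
    split_ifs <;> norm_num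
  · intro j
    simp only [hb]
    split_ifs <;> norm_num
  · simp only [hb]
    rw [Finset.sum_add_distrib]
    have h1 : ∑ j : Fin 3 ⊕ Fin 3, (1 : ℝ) = 6 := by simp
    have h2 : 0 ≤ ∑ j : Fin 3 ⊕ Fin 3, (if j = Sum.inl k₀ ∨ j = Sum.inr k₀ then (1 / 2 : ℝ) else 0) :=
      Finset.sum_nonneg fun j _ => by split_ifs <;> norm_num
    linarith
  · intro z hz
    rw [hprod z hz]
    have hu : 0 < ‖z - c‖ := norm_pos_iff.2 (sub_ne_zero.2 (by
      have := hz (Sum.inl k₀)
      simpa [hr, htk] using this))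
    have hv : 0 < ‖z + c‖ := norm_pos_iff.2 (by
      have := hz (Sum.inr k₀)
      simp only [hr, Sum.elim_inr, htk] at this
      intro h
      exact this (eq_neg_of_add_eq_zero_left h))
    have h1 := abs_log_le hu hv
    have h2 : ‖FF s c z‖ = |Real.log (‖z - c‖ / ‖z + c‖)| * ‖z‖ * ‖QQ s z‖⁻¹ := by
      unfold FF
      rw [norm_div, norm_mul, Complex.norm_real, Complex.norm_real, norm_div, norm_norm, Real.norm_eq_abs, div_eq_mul_inv]
    have h3 : ‖z - c‖ + ‖z + c‖ ≤ 2 * (1 + ‖c‖) * (1 + ‖z‖) := by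
      have e1 := norm_sub_le z c
      have e2 := norm_add_le z c
      nlinarith [norm_nonneg z, norm_nonneg c, mul_nonneg (norm_nonneg z) (norm_nonneg c)]
    rw [h2]
    have h4 : 0 ≤ ‖z - c‖ ^ (-(1 / 2) : ℝ) * ‖z + c‖ ^ (-(1 / 2) : ℝ) := by positivity
    have h5 : (1 + ‖z‖) ^ (2 : ℝ) = (1 + ‖z‖) * (1 + ‖z‖) := by
      rw [show (2 : ℝ) = ((2 : ℕ) : ℝ) by norm_num, Real.rpow_natCast]
      ring
    rw [h5]
    have hzn := norm_nonneg z
    have hcn := norm_nonneg c
    calc |Real.log (‖z - c‖ / ‖z + c‖)| * ‖z‖ * ‖QQ s z‖⁻¹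
        ≤ (2 * (2 * (1 + ‖c‖) * (1 + ‖z‖)) * (‖z - c‖ ^ (-(1 / 2) : ℝ) * ‖z + c‖ ^ (-(1 / 2) : ℝ))) * (1 + ‖z‖) * ‖QQ s z‖⁻¹ := by
          apply mul_le_mul_of_nonneg_right _ (by positivity)
          apply mul_le_mul (h1.trans _) (by linarith) hzn (by positivity)
          apply mul_le_mul_of_nonneg_right _ h4
          linarith
      _ = _ := by ring

/-- the modulus of `P(z)` -/
lemma norm_QQ_le (s : Fin 3 → ℂ) (him : ∀ k, 0 ≤ (s k).im) (z : ℂ) (hz : 0 ≤ z.re * z.im) : ‖QQ s z‖ ≤ ‖QQ s (conj z)‖ := by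
  unfold QQ
  rw [norm_prod, norm_prod]
  apply Finset.prod_le_prod
  · intro k _
    exact norm_nonneg _
  · intro k _
    rw [← sq_le_sq₀ (norm_nonneg _) (norm_nonneg _)]
    rw [← Complex.normSq_eq_norm_sq, ← Complex.normSq_eq_norm_sq, Complex.normSq_apply, Complex.normSq_apply]
    simp only [Complex.sub_re, Complex.sub_im, sq, Complex.mul_re, Complex.mul_im, Complex.conj_re, Complex.conj_im]
    nlinarith [mul_nonneg hz (him k)]

lemma QQ_neg (s : Fin 3 → ℂ) (z : ℂ) : QQ s (-z) = QQ s z := by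
  unfold QQ
  simp

lemma FF_neg (s : Fin 3 → ℂ) (c z : ℂ) : FF s c (-z) = FF s c z := by
  unfold FF
  have h1 : (-z - c) / (-z + c) = ((z - c) / (z + c))⁻¹ := by
    rw [inv_div, ← neg_div_neg_eq]
    congr 1 <;> ring
  rw [QQ_neg, h1, norm_inv, Real.log_inv]
  push_cast
  ring

/-- the symmetrized integrand -/
noncomputable def HH (s : Fin 3 → ℂ) (c z : ℂ) : ℝ := (FF s c z).re + (FF s c (conj z)).re

lemma HH_neg (s : Fin 3 → ℂ) (c z : ℂ) : HH s c (-z) = HH s c z := by
  unfold HH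
  rw [map_neg, FF_neg, FF_neg]

lemma HH_conj (s : Fin 3 → ℂ) (c z : ℂ) : HH s c (conj z) = HH s c z := by
  unfold HH
  rw [Complex.conj_conj, add_comm]

lemma FF_re (s : Fin 3 → ℂ) (c z : ℂ) : (FF s c z).re = Real.log ‖(z - c) / (z + c)‖ * z.re / ‖QQ s z‖ := by
  unfold FF
  rw [Complex.div_ofReal_re, Complex.re_ofReal_mul]

/-- the pointwise estimate in the open first quadrant -/
lemma HH_neg_of_quadrant (s : Fin 3 → ℂ) (him : ∀ k, 0 ≤ (s k).im) (c : ℂ) (hc : 0 < c.re) (hc' : 0 ≤ c.im)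
    (z : ℂ) (hzr : 0 < z.re) (hzi : 0 < z.im) (hz : z ≠ c) (hQ : QQ s z ≠ 0) : HH s c z < 0 := by
  have hN : 0 < ‖QQ s z‖ := norm_pos_iff.2 hQ
  have hN' := norm_QQ_le s him z (mul_pos hzr hzi).le
  have hN1 : 0 < ‖QQ s (conj z)‖ := hN.trans_le hN'
  have hu : 0 < ‖z - c‖ := norm_pos_iff.2 (sub_ne_zero.2 hz)
  have hv : 0 < ‖z + c‖ := by
    apply norm_pos_iff.2
    intro h
    have := congrArg Complex.re h
    simp at this
    linarith
  have hu' : 0 < ‖conj z - c‖ := by
    apply norm_pos_iff.2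
    intro h
    have := congrArg Complex.im h
    simp at this
    linarith
  have hv' : 0 < ‖conj z + c‖ := by
    apply norm_pos_iff.2
    intro h
    have := congrArg Complex.re h
    simp at this
    linarith
  have hA : Real.log ‖(z - c) / (z + c)‖ < 0 := by
    apply Real.log_neg
    · rw [norm_div]
      positivity
    · rw [norm_div, div_lt_one hv, ← sq_lt_sq₀ hu.le hv.le, ← Complex.normSq_eq_norm_sq, ← Complex.normSq_eq_norm_sq,
        Complex.normSq_apply, Complex.normSq_apply]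
      simp only [Complex.sub_re, Complex.sub_im, Complex.add_re, Complex.add_im]
      nlinarith [mul_pos hzr hc, mul_nonneg hzi.le hc']
  have hAB : Real.log ‖(z - c) / (z + c)‖ + Real.log ‖(conj z - c) / (conj z + c)‖ < 0 := by
    rw [← Real.log_mul (by rw [norm_div]; positivity) (by rw [norm_div]; positivity), norm_div, norm_div,
      div_mul_div_comm]
    apply Real.log_neg (by positivity)
    rw [div_lt_one (by positivity), ← norm_mul, ← norm_mul, ← sq_lt_sq₀ (norm_nonneg _) (norm_nonneg _),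
      ← Complex.normSq_eq_norm_sq, ← Complex.normSq_eq_norm_sq]
    have e1 : Complex.normSq ((z - c) * (conj z - c)) - Complex.normSq ((z + c) * (conj z + c)) =
        -8 * (z.re * (c.re * (z.re ^ 2 + z.im ^ 2 + c.re ^ 2 + c.im ^ 2))) := by
      rw [Complex.normSq_apply, Complex.normSq_apply]
      simp only [Complex.sub_re, Complex.sub_im, Complex.add_re, Complex.add_im, Complex.mul_re, Complex.mul_im,
        Complex.conj_re, Complex.conj_im]
      ring
    have e2 : 0 < z.re * (c.re * (z.re ^ 2 + z.im ^ 2 + c.re ^ 2 + c.im ^ 2)) := by positivity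
    linarith
  have hconj : (conj z).re = z.re := Complex.conj_re z
  unfold HH
  rw [FF_re, FF_re, hconj]
  set A := Real.log ‖(z - c) / (z + c)‖
  set B := Real.log ‖(conj z - c) / (conj z + c)‖
  set N := ‖QQ s z‖
  set M := ‖QQ s (conj z)‖
  have h1 : A * z.re / N ≤ A * z.re / M := by
    rw [div_le_div_iff₀ hN hN1]
    have : A * z.re ≤ 0 := by nlinarith
    nlinarith
  have h2 : A * z.re / M + B * z.re / M < 0 := by
    rw [← add_div]
    apply div_neg_of_neg_of_pos _ hN1
    nlinarith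
  linarith

lemma ae_re_ne : ∀ᵐ z : ℂ, z.re ≠ 0 := by
  rw [ae_iff]
  have h := Measure.addHaar_submodule (volume : Measure ℂ) (LinearMap.ker Complex.reLm) (by
    intro h
    have h1 : (1 : ℂ) ∈ LinearMap.ker Complex.reLm := by
      rw [h]
      trivial
    simp at h1)
  convert h using 2
  ext z
  simp

lemma ae_im_ne : ∀ᵐ z : ℂ, z.im ≠ 0 := by
  rw [ae_iff]
  have h := Measure.addHaar_submodule (volume : Measure ℂ) (LinearMap.ker Complex.imLm) (by
    intro h
    have h1 : Complex.I ∈ LinearMap.ker Complex.imLm := by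
      rw [h]
      trivial
    simp at h1)
  convert h using 2
  ext z
  simp

/-- **The sign of the integral.** -/
theorem integral_FF_neg (s : Fin 3 → ℂ) (hs : Function.Injective s) (hs0 : ∀ k, s k ≠ 0) (him : ∀ k, 0 ≤ (s k).im)
    (k₀ : Fin 3) (c : ℂ) (hck : c ^ 2 = s k₀) (hc : 0 < c.re) (hc' : 0 ≤ c.im) : (∫ z, FF s c z).re < 0 := by
  have hI := integrable_FF s hs hs0 k₀ c hck
  have hI2 : Integrable (fun z => FF s c (conj z)) :=
    (Complex.conjLIE.measurePreserving).integrable_comp_of_integrable hI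
  have hre : (∫ z, FF s c z).re = ∫ z, (FF s c z).re := (integral_re hI).symm
  have hconj : ∫ z, (FF s c (conj z)).re = ∫ z, (FF s c z).re :=
    (Complex.conjLIE.measurePreserving).integral_comp Complex.conjLIE.toHomeomorph.measurableEmbedding
      (fun z => (FF s c z).re)
  have hH : ∫ z, HH s c z = 2 * ∫ z, (FF s c z).re := by
    have : ∫ z, HH s c z = (∫ z, (FF s c z).re) + ∫ z, (FF s c (conj z)).re := integral_add hI.re hI2.re
    rw [this, hconj]
    ring
  have hHI : Integrable (fun z => HH s c z) := hI.re.add hI2.re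
  -- the exceptional set
  have hQ0 : {z : ℂ | QQ s z = 0}.Finite := by
    have h1 : {z : ℂ | QQ s z = 0} ⊆ ⋃ k, {z : ℂ | z ^ 2 = s k} := by
      intro z hz
      have hz : ∏ k, (z ^ 2 - s k) = 0 := hz
      rw [Finset.prod_eq_zero_iff] at hz
      obtain ⟨k, -, hk⟩ := hz
      exact Set.mem_iUnion.2 ⟨k, sub_eq_zero.1 hk⟩
    apply Set.Finite.subset (Set.finite_iUnion fun k => _) h1
    intro k
    obtain ⟨t, ht⟩ := IsAlgClosed.exists_pow_nat_eq (s k) (n := 2) (by norm_num)
    apply Set.Finite.subset (Set.toFinite {t, -t})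
    intro z hz
    have hz : z ^ 2 = s k := hz
    rw [← ht] at hz
    exact sq_eq_sq_iff_eq_or_eq_neg.1 hz
  have hneg : ∀ z : ℂ, z.re ≠ 0 → z.im ≠ 0 → (QQ s z ≠ 0 ∧ QQ s (conj z) ≠ 0 ∧ z ≠ c ∧ z ≠ -c ∧ conj z ≠ c ∧ conj z ≠ -c) → HH s c z < 0 := by
    rintro z h1 h2 ⟨h3, h4, h5, h6, h7, h8⟩
    rcases lt_or_gt_of_ne h1 with hr | hr <;> rcases lt_or_gt_of_ne h2 with hi | hi
    · rw [← HH_neg]
      apply HH_neg_of_quadrant s him c hc hc' _ (by simpa using hr) (by simpa using hi)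
      · intro h
        exact h6 (by rw [← h, neg_neg])
      · rwa [QQ_neg]
    · rw [← HH_conj, ← HH_neg]
      apply HH_neg_of_quadrant s him c hc hc' _ (by simpa using hr) (by simpa using hi)
      · intro h
        exact h8 (by rw [← h, neg_neg])
      · rwa [QQ_neg]
    · rw [← HH_conj]
      exact HH_neg_of_quadrant s him c hc hc' _ (by simpa using hr) (by simpa using hi) h7 h4
    · exact HH_neg_of_quadrant s him c hc hc' _ hr hi h5 h3
  have hae : ∀ᵐ z : ℂ, HH s c z < 0 := by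
    have hcount : (({z : ℂ | QQ s z = 0} ∪ (fun z => conj z) ⁻¹' {z : ℂ | QQ s z = 0}) ∪ {c, -c, conj c, conj (-c)}).Countable := by
      apply Set.Finite.countable
      apply Set.Finite.union
      · exact hQ0.union (hQ0.preimage (Complex.conjLIE.injective.injOn))
      · exact Set.toFinite _
    filter_upwards [ae_re_ne, ae_im_ne, hcount.ae_notMem volume] with z h1 h2 h3
    simp only [Set.mem_union, Set.mem_ofPred_eq, Set.mem_preimage, Set.mem_insert_iff, Set.mem_singleton_iff, not_or] at h3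
    obtain ⟨⟨h3, h4⟩, h5, h6, h7, h8⟩ := h3
    refine hneg z h1 h2 ⟨h3, h4, h5, h6, ?_, ?_⟩
    · intro h
      apply h7
      rw [← h, Complex.conj_conj]
    · intro h
      apply h8
      rw [← h, Complex.conj_conj]
  have h5 : ∫ z, HH s c z < 0 := by
    rw [← neg_pos, ← integral_neg, integral_pos_iff_support_of_nonneg_ae]
    · have h6 : volume (Function.support fun z => - HH s c z) = volume (Set.univ : Set ℂ) := by
        apply measure_congr
        filter_upwards [hae] with z hz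
        apply propext
        exact ⟨fun _ => trivial, fun _ => (neg_pos.2 hz).ne'⟩
      rw [h6]
      simp
    · filter_upwards [hae] with z hz
      exact (neg_pos.2 hz).le
    · exact hHI.neg
  rw [hre]
  linarith

end Pool.Agent.J4.H67.REG
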